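import Mathlib

/-! The truncated tail integral of an antitone function. -/

set_option autoImplicit false

namespace Pool.Agent.R790.Mm

open MeasureTheory Set Topology

/-- tail functions -/
structure TF (T : ℝ → ℝ) : Prop where
  anti : Antitone T
  nonneg : ∀ r, 0 ≤ T r
  le_one : ∀ r, T r ≤ 1
  small : ∀ p > 0, ∃ R, 0 < R ∧ T R ≤ p

/-- the truncated tail integral -/
noncomputable def GG (T : ℝ → ℝ) (p : ℝ) : ℝ := ∫ r in Ioi 0, max (T r - p) 0

theorem cut_anti {T : ℝ → ℝ} (hT : Antitone T) (p : ℝ) : Antitone fun r => max (T r - p) 0 :=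
  fun _ _ h => max_le_max (sub_le_sub_right (hT h) p) le_rfl

theorem cut_zero {T : ℝ → ℝ} (hT : Antitone T) {p R r : ℝ} (h : T R ≤ p) (hr : R ≤ r) :
    max (T r - p) 0 = 0 := by
  rw [max_eq_right]
  linarith [hT hr]

theorem cut_int {T : ℝ → ℝ} (hT : TF T) {p : ℝ} (hp : 0 < p) :
    IntegrableOn (fun r => max (T r - p) 0) (Ioi 0) := by
  obtain ⟨R, hR, hR2⟩ := hT.small p hp
  have h1 : IntegrableOn (fun r => max (T r - p) 0) (Ioc 0 R) := by
    have : IntegrableOn (fun r => max (T r - p) 0) (Icc 0 R) :=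
      ((cut_anti hT.anti p).antitoneOn _).integrableOn_isCompact isCompact_Icc
    exact this.mono_set Ioc_subset_Icc_self
  have h2 : IntegrableOn (fun r => max (T r - p) 0) (Ioi R) := by
    have h0 : IntegrableOn (fun _ : ℝ => (0 : ℝ)) (Ioi R) := integrableOn_zero
    refine h0.congr_fun (fun r hr => ?_) measurableSet_Ioi
    exact (cut_zero hT.anti hR2 (le_of_lt hr)).symm
  have := h1.union h2
  rwa [Ioc_union_Ioi_eq_Ioi hR.le] at this

theorem GG_eq {T : ℝ → ℝ} (hT : TF T) {p R : ℝ} (h : T R ≤ p) :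
    GG T p = ∫ r in Ioc 0 R, max (T r - p) 0 := by
  unfold GG
  refine setIntegral_eq_of_subset_of_forall_sdiff_eq_zero measurableSet_Ioi
    (fun x hx => hx.1) fun x hx => ?_
  have hx0 : 0 < x := hx.1
  have hx1 : R < x := by
    by_contra hc
    exact hx.2 ⟨hx0, not_lt.1 hc⟩
  exact cut_zero hT.anti h hx1.le

theorem GG_nonneg (T : ℝ → ℝ) (p : ℝ) : 0 ≤ GG T p :=
  setIntegral_nonneg measurableSet_Ioi fun _ _ => le_max_right _ _

theorem GG_lip {T : ℝ → ℝ} (hT : TF T) {p p' R : ℝ} (hR : 0 < R) (hp : 0 < p) (hp' : 0 < p')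
    (h : T R ≤ p) (h' : T R ≤ p') : |GG T p - GG T p'| ≤ R * |p - p'| := by
  have i1 := (cut_int hT hp).mono_set (Ioc_subset_Ioi_self : Ioc 0 R ⊆ Ioi 0)
  have i2 := (cut_int hT hp').mono_set (Ioc_subset_Ioi_self : Ioc 0 R ⊆ Ioi 0)
  rw [GG_eq hT h, GG_eq hT h', ← integral_sub i1 i2]
  have h3 := norm_setIntegral_le_of_norm_le_const (μ := volume) (s := Ioc 0 R)
    (f := fun r => max (T r - p) 0 - max (T r - p') 0) (C := |p - p'|) (by simp) (fun x _ => by
      rw [Real.norm_eq_abs]
      have := abs_max_sub_max_le_abs (T x - p) (T x - p') 0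
      refine this.trans (le_of_eq ?_)
      rw [show T x - p - (T x - p') = -(p - p') by ring, abs_neg])
  rw [Real.norm_eq_abs] at h3
  refine h3.trans (le_of_eq ?_)
  rw [measureReal_def, Real.volume_Ioc, ENNReal.toReal_ofReal (by linarith)]
  ring

theorem GG_cont {T : ℝ → ℝ} (hT : TF T) {p : ℝ} (hp : 0 < p) : ContinuousAt (GG T) p := by
  obtain ⟨R, hR, hR2⟩ := hT.small (p / 2) (by linarith)
  rw [ContinuousAt, tendsto_iff_dist_tendsto_zero]
  have h1 : Filter.Tendsto (fun q => R * |q - p|) (𝓝 p) (𝓝 0) := by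
    have : Continuous fun q : ℝ => R * |q - p| := by fun_prop
    have := this.tendsto p
    simpa using this
  refine squeeze_zero' (Filter.Eventually.of_forall fun _ => dist_nonneg) ?_ h1
  filter_upwards [lt_mem_nhds (show p / 2 < p by linarith)] with q hq
  rw [Real.dist_eq]
  exact GG_lip hT hR (by linarith) hp (hR2.trans hq.le) (by linarith)

theorem GG_shift {T T' : ℝ → ℝ} (hT : TF T) (hT' : TF T') {ε ε' p : ℝ} (hε : 0 ≤ ε)
    (hp : 0 < p) (hp1 : 0 < p - ε') (h : ∀ r > 0, T' (r + ε) ≤ T r + ε') :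
    GG T' p ≤ ε + GG T (p - ε') := by
  have i1 := cut_int hT' hp
  have h1 : GG T' p = (∫ r in Ioc 0 ε, max (T' r - p) 0) + ∫ r in Ioi ε, max (T' r - p) 0 := by
    unfold GG
    rw [← Ioc_union_Ioi_eq_Ioi hε]
    refine setIntegral_union ?_ measurableSet_Ioi (i1.mono_set Ioc_subset_Ioi_self)
      (i1.mono_set (Ioi_subset_Ioi hε))
    rw [Set.disjoint_left]
    intro x hx hx2
    exact absurd hx.2 (not_le.2 hx2)
  have h2 : (∫ r in Ioc 0 ε, max (T' r - p) 0) ≤ ε := by
    have h3 := norm_setIntegral_le_of_norm_le_const (μ := volume) (s := Ioc 0 ε)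
      (f := fun r => max (T' r - p) 0) (C := 1) (by simp) (fun x _ => by
        rw [Real.norm_eq_abs, abs_of_nonneg (le_max_right _ _)]
        exact max_le (by linarith [hT'.le_one x]) zero_le_one)
    rw [Real.norm_eq_abs, measureReal_def, Real.volume_Ioc,
      ENNReal.toReal_ofReal (by linarith)] at h3
    have := (abs_le.1 h3).2
    linarith
  have h4 : (∫ r in Ioi ε, max (T' r - p) 0) = ∫ r in Ioi 0, max (T' (r + ε) - p) 0 := by
    have := (measurePreserving_add_right (volume : Measure ℝ) ε).setIntegral_preimage_emb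
      (measurableEmbedding_addRight ε) (fun r => max (T' r - p) 0) (Ioi ε)
    rw [← this]
    congr 2
    ext r
    simp
  have i2 : IntegrableOn (fun r => max (T' (r + ε) - p) 0) (Ioi 0) := by
    have := (measurePreserving_add_right (volume : Measure ℝ) ε).integrableOn_comp_preimage
      (measurableEmbedding_addRight ε) (f := fun r => max (T' r - p) 0) (s := Ioi ε)
    have h5 := this.2 (i1.mono_set (Ioi_subset_Ioi hε))
    have h6 : (fun x : ℝ => x + ε) ⁻¹' Ioi ε = Ioi 0 := by
      ext r; simp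
    rw [h6] at h5
    exact h5
  have h5 : (∫ r in Ioi 0, max (T' (r + ε) - p) 0) ≤ GG T (p - ε') := by
    refine setIntegral_mono_on i2 (cut_int hT hp1) measurableSet_Ioi fun r hr => ?_
    exact max_le_max (by linarith [h r hr]) le_rfl
  rw [h1, h4]
  linarith

theorem GG_ge {T : ℝ → ℝ} (hT : TF T) {p r : ℝ} (hp : 0 < p) (hr : 0 < r) :
    r * (T r - p) ≤ GG T p := by
  have i1 := cut_int hT hp
  have h1 : (∫ x in Ioc 0 r, max (T x - p) 0) ≤ GG T p :=
    setIntegral_mono_set i1 (Filter.Eventually.of_forall fun _ => le_max_right _ _)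
      (LE.le.eventuallyLE Ioc_subset_Ioi_self)
  have h2 := setIntegral_ge_of_const_le_real (μ := volume) (s := Ioc 0 r)
    (f := fun x => max (T x - p) 0) (c := T r - p) measurableSet_Ioc (by simp)
    (fun x hx => le_max_of_le_left (sub_le_sub_right (hT.anti hx.2) p))
    (i1.mono_set Ioc_subset_Ioi_self)
  rw [measureReal_def, Real.volume_Ioc, ENNReal.toReal_ofReal (by linarith)] at h2
  linarith

theorem GG_scale (T : ℝ → ℝ) (p : ℝ) {t : ℝ} (ht : 0 < t) :
    GG (fun r => T (r / t)) p = t * GG T p := by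
  unfold GG
  have := integral_comp_mul_left_Ioi (fun r => max (T r - p) 0) 0 (b := t⁻¹) (by positivity)
  simp only [inv_inv, mul_zero, smul_eq_mul] at this
  rw [← this]
  congr 2
  funext r
  show max (T (r / t) - p) 0 = _
  rw [div_eq_inv_mul]

theorem GG_one {T : ℝ → ℝ} (hT : TF T) : GG T 1 = 0 := by
  unfold GG
  have : ∀ r, max (T r - 1) 0 = 0 := fun r => max_eq_right (by linarith [hT.le_one r])
  simp [this]

end Pool.Agent.R790.Mm
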