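import Pool.Agent.R790.Mm.XOps
import Pool.Agent.R790.Mm.GG

/-! Contractibility of `X_*` and of its quotient by scaling, from properties of a topology on the
set of classes. -/

set_option autoImplicit false

namespace Pool.Agent.R790.Mm

open MeasureTheory Set Topology Filter

/-- continuity of the mixing operation -/
def MixCont [TopologicalSpace XX] : Prop :=
  Continuous fun p : XX × NNReal × NNReal => mixX p.1 p.2.1 p.2.2

theorem scaleX_cont [TopologicalSpace XX] (h : MixCont) (t : ℝ) (ht : 0 < t) :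
    Continuous (scaleX t ht) := by
  have e : scaleX t ht = (fun p : XX × NNReal × NNReal => mixX p.1 p.2.1 p.2.2) ∘
      fun x => (x, (⟨t, ht.le⟩, 0)) := by
    funext x
    exact scaleX_eq_mixX x t ht
  rw [e]
  exact Continuous.comp h (continuous_id.prodMk continuous_const)

/-- scaling on `X_*` -/
noncomputable def scaleXs (t : ℝ) (ht : 0 < t) (x : Xs) : Xs :=
  ⟨scaleX t ht x.1, scaleX_ne x.2 t ht⟩

theorem scaleXs_cont [TopologicalSpace XX] (h : MixCont) (t : ℝ) (ht : 0 < t) :
    Continuous (scaleXs t ht) :=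
  ((scaleX_cont h t ht).comp continuous_subtype_val).subtype_mk _

theorem mk_open [TopologicalSpace XX] (h : MixCont) :
    IsOpenMap (Quotient.mk scaleSetoid : Xs → Sig) := by
  intro U hU
  have : IsOpen ((Quotient.mk scaleSetoid : Xs → Sig) ⁻¹' ((Quotient.mk scaleSetoid) '' U)) := by
    have e : (Quotient.mk scaleSetoid : Xs → Sig) ⁻¹' ((Quotient.mk scaleSetoid) '' U) =
        ⋃ t : {t : ℝ // 0 < t}, scaleXs t.1 t.2 ⁻¹' U := by
      ext y
      simp only [mem_preimage, mem_image, mem_iUnion]
      constructor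
      · rintro ⟨x, hx, hxy⟩
        have h1 : y ≈ x := Quotient.exact hxy.symm
        obtain ⟨t, ht, h2⟩ := h1
        refine ⟨⟨t, ht⟩, ?_⟩
        have : scaleXs t ht y = x := Subtype.ext h2
        rwa [this]
      · rintro ⟨⟨t, ht⟩, h1⟩
        refine ⟨_, h1, ?_⟩
        have h2 : y ≈ scaleXs t ht y := ⟨t, ht, rfl⟩
        exact (Quotient.sound h2).symm
    rw [e]
    exact isOpen_iUnion fun t => hU.preimage (scaleXs_cont h t.1 t.2)
  exact this

theorem mk_quot [TopologicalSpace XX] (h : MixCont) :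
    IsOpenQuotientMap (Quotient.mk scaleSetoid : Xs → Sig) :=
  ⟨Quotient.mk_surjective, continuous_quotient_mk', mk_open h⟩

theorem mix_one_ne : mixX ptX 0 1 ≠ ptX := by
  intro h0
  have h1 : IsPt (mix pt 0 1) := isPt_iff.2 (eqX.1 h0)
  rw [mix_nonpos pt (lt_irrefl _)] at h1
  exact not_isPt_prod pt one_pos h1

/-- `X_*` is contractible. -/
theorem xs_contractible [TopologicalSpace XX] (h : MixCont) : ContractibleSpace Xs := by
  rw [contractible_iff_id_nullhomotopic]
  let nn : unitInterval → NNReal := fun t => ⟨t.1, t.2.1⟩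
  have hnn : Continuous nn := continuous_subtype_val.subtype_mk _
  have hnn' : Continuous fun t => nn (unitInterval.symm t) :=
    hnn.comp unitInterval.continuous_symm
  let I0 : Xs := ⟨mixX ptX 0 1, mix_one_ne⟩
  have hc1 : Continuous fun z : unitInterval × Xs => mixX z.2.1 1 (nn z.1) := by
    have : (fun z : unitInterval × Xs => mixX z.2.1 1 (nn z.1)) =
        (fun p : XX × NNReal × NNReal => mixX p.1 p.2.1 p.2.2) ∘
        fun z => (z.2.1, (1, nn z.1)) := rfl
    rw [this]
    exact Continuous.comp h ((continuous_subtype_val.comp continuous_snd).prodMk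
      (continuous_const.prodMk (hnn.comp continuous_fst)))
  have hc2 : Continuous fun z : unitInterval × Xs =>
      mixX z.2.1 (nn (unitInterval.symm z.1)) 1 := by
    have : (fun z : unitInterval × Xs => mixX z.2.1 (nn (unitInterval.symm z.1)) 1) =
        (fun p : XX × NNReal × NNReal => mixX p.1 p.2.1 p.2.2) ∘
        fun z => (z.2.1, (nn (unitInterval.symm z.1), 1)) := rfl
    rw [this]
    exact Continuous.comp h ((continuous_subtype_val.comp continuous_snd).prodMk
      ((hnn'.comp continuous_fst).prodMk continuous_const))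
  let f1 : C(Xs, Xs) := ⟨fun x => ⟨mixX x.1 1 1, mixX_ne x.2 (Or.inl one_pos)⟩, by
    refine Continuous.subtype_mk ?_ _
    have : (fun x : Xs => mixX x.1 1 1) =
        (fun p : XX × NNReal × NNReal => mixX p.1 p.2.1 p.2.2) ∘
        fun x => (x.1, (1, 1)) := rfl
    rw [this]
    exact Continuous.comp h (continuous_subtype_val.prodMk continuous_const)⟩
  have H1 : (ContinuousMap.id Xs).Homotopic f1 := by
    refine ⟨⟨⟨fun z => ⟨mixX z.2.1 1 (nn z.1), mixX_ne z.2.2 (Or.inl one_pos)⟩,
      hc1.subtype_mk _⟩, fun x => ?_, fun x => ?_⟩⟩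
    · exact Subtype.ext (mixX_one_zero x.1)
    · rfl
  have H2 : f1.Homotopic (ContinuousMap.const Xs I0) := by
    refine ⟨⟨⟨fun z => ⟨mixX z.2.1 (nn (unitInterval.symm z.1)) 1,
      mixX_ne z.2.2 (Or.inr one_pos)⟩, hc2.subtype_mk _⟩, fun x => ?_, fun x => ?_⟩⟩
    · refine Subtype.ext ?_
      show mixX x.1 (nn (unitInterval.symm 0)) 1 = mixX x.1 1 1
      have e : ((nn (unitInterval.symm 0) : NNReal) : ℝ) = 1 := by
        show ((unitInterval.symm 0 : unitInterval) : ℝ) = 1
        simp
      rw [e]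
    · refine Subtype.ext ?_
      show mixX x.1 (nn (unitInterval.symm 1)) 1 = mixX ptX 0 1
      have e : ((nn (unitInterval.symm 1) : NNReal) : ℝ) = 0 := by
        show ((unitInterval.symm 1 : unitInterval) : ℝ) = 0
        simp
      rw [e]
      exact mixX_zero_one x.1 ptX
  exact ⟨I0, H1.trans H2⟩

/-- families of tail functions -/
structure TFam [PseudoMetricSpace XX] (T : XX → ℝ → ℝ) : Prop where
  tf : ∀ x, TF (T x)
  near : ∀ x y ε, dist x y < ε → ∀ r > 0, T y (r + 2 * ε) ≤ T x r + 2 * ε
  pos : ∀ x, x ≠ ptX → ∃ r > 0, 0 < T x r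
  scale : ∀ x t ht r, T (scaleX t ht x) r = T x (r / t)

section

variable [PseudoMetricSpace XX] {T : XX → ℝ → ℝ}

theorem GG_near1 (hT : TFam T) {x y : XX} {ε p : ℝ} (h : dist x y < ε) (hp : 0 < p - 2 * ε) :
    GG (T y) p ≤ 2 * ε + GG (T x) (p - 2 * ε) := by
  have hε : 0 < ε := lt_of_le_of_lt dist_nonneg h
  exact GG_shift (hT.tf x) (hT.tf y) (by linarith) (by linarith) hp (hT.near x y ε h)

theorem GG_near2 (hT : TFam T) {x y : XX} {ε p : ℝ} (h : dist x y < ε) (hp : 0 < p) :
    GG (T x) (p + 2 * ε) - 2 * ε ≤ GG (T y) p := by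
  have hε : 0 < ε := lt_of_le_of_lt dist_nonneg h
  rw [dist_comm] at h
  have := GG_shift (hT.tf y) (hT.tf x) (ε := 2 * ε) (ε' := 2 * ε) (p := p + 2 * ε) (by linarith)
    (by linarith) (by linarith) (hT.near y x ε h)
  rw [add_sub_cancel_right] at this
  linarith

theorem GG_contAt (hT : TFam T) (x : XX) {p : ℝ} (hp : 0 < p) :
    ContinuousAt (fun z : ℝ × XX => GG (T z.2) z.1) (p, x) := by
  rw [Metric.continuousAt_iff]
  intro η hη
  obtain ⟨δ, hδ, h⟩ := Metric.continuousAt_iff.1 (GG_cont (hT.tf x) hp) (η / 2) (by linarith)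
  let ε := min (min (δ / 4) (p / 4)) (η / 8)
  have hε : 0 < ε := lt_min (lt_min (by linarith) (by linarith)) (by linarith)
  have hε1 : ε ≤ δ / 4 := (min_le_left _ _).trans (min_le_left _ _)
  have hε2 : ε ≤ p / 4 := (min_le_left _ _).trans (min_le_right _ _)
  have hε3 : ε ≤ η / 8 := min_le_right _ _
  refine ⟨ε, hε, ?_⟩
  rintro ⟨q, y⟩ hz
  have hq : dist q p < ε := lt_of_le_of_lt (le_max_left _ _) hz
  have hy : dist x y < ε := by
    rw [dist_comm]
    exact lt_of_le_of_lt (le_max_right _ _) hz
  rw [Real.dist_eq, abs_lt] at hq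
  have h1 := GG_near1 hT (p := q) hy (by linarith [hq.1])
  have h2 := GG_near2 hT (p := q) hy (by linarith [hq.1])
  have h3 := h (x := q - 2 * ε) (by rw [Real.dist_eq, abs_lt]; constructor <;> linarith [hq.1, hq.2])
  have h4 := h (x := q + 2 * ε) (by rw [Real.dist_eq, abs_lt]; constructor <;> linarith [hq.1, hq.2])
  rw [Real.dist_eq, abs_lt] at h3 h4
  show dist (GG (T y) q) (GG (T x) p) < η
  rw [Real.dist_eq, abs_lt]
  constructor <;> linarith [h3.1, h3.2, h4.1, h4.2]

/-- the mixing parameter -/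
noncomputable def kap (T : XX → ℝ → ℝ) (z : unitInterval × Xs) : ℝ :=
  z.1 / (z.1 + GG (T z.2.1) z.1)

omit [PseudoMetricSpace XX] in
theorem kap_mem (T : XX → ℝ → ℝ) (z : unitInterval × Xs) : kap T z ∈ Icc (0 : ℝ) 1 := by
  have h1 : (0 : ℝ) ≤ z.1 := z.1.2.1
  have h2 := GG_nonneg (T z.2.1) z.1
  exact ⟨div_nonneg h1 (by linarith), div_le_one_of_le₀ (by linarith) (by linarith)⟩

theorem kap_cont (hT : TFam T) : Continuous (kap T) := by
  rw [continuous_iff_continuousAt]
  rintro ⟨p, x⟩
  rcases p.2.1.eq_or_lt with hp | hp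
  · -- the parameter zero
    have hp0 : (p : ℝ) = 0 := hp.symm
    obtain ⟨r, hr, hτ⟩ := hT.pos x.1 x.2
    set τ := T x.1 r with hτd
    have h0 : kap T (p, x) = 0 := by simp [kap, hp0]
    rw [ContinuousAt, h0]
    let ε := min (τ / 8) (r * τ / 8)
    have hε : 0 < ε := lt_min (by linarith) (by positivity)
    have hε1 : ε ≤ τ / 8 := min_le_left _ _
    have hε2 : ε ≤ r * τ / 8 := min_le_right _ _
    have hup : Tendsto (fun z : unitInterval × Xs => (z.1 : ℝ) / (r * τ / 4)) (𝓝 (p, x)) (𝓝 0) := by
      have hc : Continuous fun z : unitInterval × Xs => (z.1 : ℝ) / (r * τ / 4) := by fun_prop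
      have := hc.tendsto (p, x)
      simpa [hp0] using this
    refine squeeze_zero' (Eventually.of_forall fun z => (kap_mem T z).1) ?_ hup
    have hball : ∀ᶠ z : unitInterval × Xs in 𝓝 (p, x), dist x.1 z.2.1 < ε ∧ (z.1 : ℝ) < ε := by
      have hc : Continuous fun z : unitInterval × Xs => dist x.1 z.2.1 :=
        continuous_const.dist (continuous_subtype_val.comp continuous_snd)
      have hc2 : Continuous fun z : unitInterval × Xs => (z.1 : ℝ) := by fun_prop
      have e1 := hc.tendsto (p, x)
      have e2 := hc2.tendsto (p, x)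
      simp only [dist_self] at e1
      have e3 : Tendsto (fun z : unitInterval × Xs => (z.1 : ℝ)) (𝓝 (p, x)) (𝓝 0) := by
        simpa [hp0] using e2
      exact (e1.eventually (gt_mem_nhds hε)).and (e3.eventually (gt_mem_nhds hε))
    filter_upwards [hball] with z hz
    obtain ⟨hz1, hz2⟩ := hz
    have hz0 : (0 : ℝ) ≤ z.1 := z.1.2.1
    rcases hz0.eq_or_lt with hz0 | hz0
    · simp [kap, ← hz0]
    · have h2 := GG_near2 hT (p := z.1) hz1 hz0
      have h3 := GG_ge (hT.tf x.1) (p := z.1 + 2 * ε) (by linarith) hr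
      have h4 : r * τ / 2 ≤ r * (τ - (z.1 + 2 * ε)) := by
        have : τ / 2 ≤ τ - (z.1 + 2 * ε) := by linarith
        calc r * τ / 2 = r * (τ / 2) := by ring
          _ ≤ _ := mul_le_mul_of_nonneg_left this hr.le
      have h5 : r * τ / 4 ≤ GG (T z.2.1) z.1 := by linarith
      unfold kap
      refine div_le_div_of_nonneg_left hz0.le (by positivity) (by linarith)
  · -- positive parameter
    have hc : ContinuousAt (fun z : unitInterval × Xs => GG (T z.2.1) z.1) (p, x) := by
      have h1 : Continuous fun z : unitInterval × Xs => ((z.1 : ℝ), z.2.1) :=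
        (continuous_subtype_val.comp continuous_fst).prodMk
          (continuous_subtype_val.comp continuous_snd)
      exact ContinuousAt.comp (g := fun z : ℝ × XX => GG (T z.2) z.1)
        (f := fun z : unitInterval × Xs => ((z.1 : ℝ), z.2.1)) (GG_contAt hT x.1 hp)
        h1.continuousAt
    have hc2 : ContinuousAt (fun z : unitInterval × Xs => (z.1 : ℝ)) (p, x) := by fun_prop
    refine hc2.div (hc2.add hc) ?_
    have := GG_nonneg (T x.1) p
    have hp' : (0 : ℝ) < p := hp
    show (p : ℝ) + GG (T x.1) p ≠ 0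
    linarith

/-- The quotient `Σ` is contractible. -/
theorem sig_contractible (h : MixCont) (hT : TFam T) : ContractibleSpace Sig := by
  rw [contractible_iff_id_nullhomotopic]
  have hm := kap_mem T
  have hpos : ∀ z : unitInterval × Xs, 0 < kap T z ∨ 0 < 1 - kap T z := by
    intro z
    rcases le_or_gt (kap T z) 0 with h | h
    · exact Or.inr (by linarith)
    · exact Or.inl h
  let K : unitInterval × Xs → Xs := fun z =>
    ⟨mixX z.2.1 (kap T z) (1 - kap T z), mixX_ne z.2.2 (hpos z)⟩
  have hK : Continuous K := by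
    refine Continuous.subtype_mk ?_ _
    let n1 : unitInterval × Xs → NNReal := fun z => ⟨kap T z, (hm z).1⟩
    let n2 : unitInterval × Xs → NNReal := fun z => ⟨1 - kap T z, by linarith [(hm z).2]⟩
    have hn1 : Continuous n1 := (kap_cont hT).subtype_mk _
    have hn2 : Continuous n2 := (continuous_const.sub (kap_cont hT)).subtype_mk _
    have e : (fun z : unitInterval × Xs => mixX z.2.1 (kap T z) (1 - kap T z)) =
        (fun p : XX × NNReal × NNReal => mixX p.1 p.2.1 p.2.2) ∘
        fun z => (z.2.1, (n1 z, n2 z)) := rfl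
    rw [e]
    exact Continuous.comp h ((continuous_subtype_val.comp continuous_snd).prodMk
      (hn1.prodMk hn2))
  have hKeq : ∀ (p : unitInterval) (x y : Xs), x ≈ y → K (p, x) ≈ K (p, y) := by
    rintro p x y ⟨t, ht, hxy⟩
    have hy : y = scaleXs t ht x := Subtype.ext hxy.symm
    subst hy
    have hG : GG (T (scaleXs t ht x).1) p = t * GG (T x.1) p := by
      have : T (scaleXs t ht x).1 = fun r => T x.1 (r / t) := by
        funext r
        exact hT.scale x.1 t ht r
      rw [this, GG_scale _ _ ht]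
    have hG0 := GG_nonneg (T x.1) p
    rcases p.2.1.eq_or_lt with hp | hp
    · have hp0 : (p : ℝ) = 0 := hp.symm
      have : K (p, x) = K (p, scaleXs t ht x) := by
        refine Subtype.ext ?_
        show mixX x.1 (kap T (p, x)) (1 - kap T (p, x)) =
          mixX (scaleXs t ht x).1 (kap T (p, scaleXs t ht x)) (1 - kap T (p, scaleXs t ht x))
        have e1 : kap T (p, x) = 0 := by simp [kap, hp0]
        have e2 : kap T (p, scaleXs t ht x) = 0 := by simp [kap, hp0]
        rw [e1, e2, sub_zero]
        exact mixX_zero_one _ _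
      rw [this]
    · have hp' : (0 : ℝ) < p := hp
      have hd1 : 0 < (p : ℝ) + GG (T x.1) p := by linarith
      have hd2 : 0 < (p : ℝ) + t * GG (T x.1) p := by
        have := mul_nonneg ht.le hG0
        linarith
      have hc : 0 < t * ((p : ℝ) + GG (T x.1) p) / ((p : ℝ) + t * GG (T x.1) p) := by positivity
      refine ⟨_, hc, ?_⟩
      show scaleX _ hc (mixX x.1 (kap T (p, x)) (1 - kap T (p, x))) =
        mixX (scaleX t ht x.1) (kap T (p, scaleXs t ht x)) (1 - kap T (p, scaleXs t ht x))
      rw [scaleX_mixX _ (hm _).1, mixX_scaleX _ (hm _).1]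
      have e1 : kap T (p, x) = p / (p + GG (T x.1) p) := rfl
      have e2 : kap T (p, scaleXs t ht x) = p / (p + t * GG (T x.1) p) := by
        show (p : ℝ) / (p + GG (T (scaleXs t ht x).1) p) = _
        rw [hG]
      rw [e1, e2]
      congr 1
      · field_simp
      · field_simp
        ring
  let F : unitInterval × Sig → Sig := fun z =>
    Quotient.map (fun x => K (z.1, x)) (fun x y hxy => hKeq z.1 x y hxy) z.2
  have hq := mk_quot h
  have hF : Continuous F := by
    have hprod : IsOpenQuotientMap (Prod.map (id : unitInterval → unitInterval)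
        (Quotient.mk scaleSetoid : Xs → Sig)) := IsOpenQuotientMap.id.prodMap hq
    rw [← hprod.continuous_comp_iff]
    have e : F ∘ Prod.map (id : unitInterval → unitInterval) (Quotient.mk scaleSetoid) =
        (Quotient.mk scaleSetoid) ∘ K := rfl
    rw [e]
    exact hq.continuous.comp hK
  have hne : Nonempty Xs := ⟨⟨mixX ptX 0 1, mix_one_ne⟩⟩
  obtain ⟨x0⟩ := hne
  refine ⟨Quotient.mk _ (K (0, x0)), ?_⟩
  refine ContinuousMap.Homotopic.symm ?_
  refine ⟨⟨⟨F, hF⟩, fun σ => ?_, fun σ => ?_⟩⟩
  · induction σ using Quotient.inductionOn with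
    | _ x =>
    show Quotient.mk scaleSetoid (K (0, x)) = Quotient.mk scaleSetoid (K (0, x0))
    congr 1
    refine Subtype.ext ?_
    show mixX x.1 (kap T (0, x)) (1 - kap T (0, x)) = mixX x0.1 (kap T (0, x0)) (1 - kap T (0, x0))
    have e1 : ∀ x, kap T (0, x) = 0 := fun x => by simp [kap]
    rw [e1, e1, sub_zero]
    exact mixX_zero_one _ _
  · induction σ using Quotient.inductionOn with
    | _ x =>
    show Quotient.mk scaleSetoid (K (1, x)) = Quotient.mk scaleSetoid x
    congr 1
    refine Subtype.ext ?_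
    show mixX x.1 (kap T (1, x)) (1 - kap T (1, x)) = x.1
    have e1 : kap T (1, x) = 1 := by
      show (((1 : unitInterval) : ℝ)) / (((1 : unitInterval) : ℝ) +
        GG (T x.1) ((1 : unitInterval) : ℝ)) = 1
      rw [Set.Icc.coe_one, GG_one (hT.tf x.1)]
      simp
    rw [e1, sub_self]
    exact mixX_one_zero _

end

end Pool.Agent.R790.Mm
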