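import Pool.Agent.R790.Mm.Ops

/-! The box distance: pseudometric, invariance, continuity of the mixing operation. -/

set_option autoImplicit false

namespace Pool.Agent.R790.Mm

open MeasureTheory Set Topology

theorem leb_real_iff {ε : ℝ} {I : Set II} :
    ENNReal.ofReal (1 - ε) ≤ leb I ↔ 1 - ε ≤ leb.real I :=
  ENNReal.ofReal_le_iff_le_toReal (measure_ne_top _ _)

theorem real_compl {Y : Type} [MeasurableSpace Y] (μ : Measure Y) [IsProbabilityMeasure μ]
    {I : Set Y} (hI : MeasurableSet I) : μ.real Iᶜ = 1 - μ.real I :=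
  probReal_compl_eq_one_sub hI

/-- lower bound for the measure of an intersection -/
theorem real_inter {Y : Type} [MeasurableSpace Y] (μ : Measure Y) [IsProbabilityMeasure μ]
    {I J : Set Y} (hI : MeasurableSet I) (hJ : MeasurableSet J) {a b : ℝ}
    (h1 : 1 - a ≤ μ.real I) (h2 : 1 - b ≤ μ.real J) : 1 - (a + b) ≤ μ.real (I ∩ J) := by
  have h3 := real_compl μ hI
  have h4 := real_compl μ hJ
  have h5 := real_compl μ (hI.inter hJ)
  rw [compl_inter] at h5
  have h6 := measureReal_union_le (μ := μ) Iᶜ Jᶜ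
  linarith

theorem map_real {Y Z : Type} [MeasurableSpace Y] [MeasurableSpace Z] {μ : Measure Y}
    {ν : Measure Z} {f : Y → Z} (hf : Measurable f) (h : μ.map f = ν) {s : Set Z}
    (hs : MeasurableSet s) : μ.real (f ⁻¹' s) = ν.real s := by
  rw [← h, map_measureReal_apply hf hs]

theorem one_mem (A B : MM) : 1 ∈ boxSet A B := by
  obtain ⟨φ, hφ⟩ := exists_param A
  obtain ⟨ψ, hψ⟩ := exists_param B
  exact ⟨zero_le_one, φ, ψ, ∅, hφ, hψ, MeasurableSet.empty, by simp, by simp⟩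

theorem box_le {A B : MM} {ε : ℝ} (h : ε ∈ boxSet A B) : box A B ≤ ε :=
  csInf_le ⟨0, fun _ hx => hx.1⟩ h

theorem box_nonneg (A B : MM) : 0 ≤ box A B := Real.sInf_nonneg fun _ hx => hx.1

theorem exists_lt_box {A B : MM} {ε : ℝ} (h : box A B < ε) : ∃ ε' ∈ boxSet A B, ε' < ε :=
  exists_lt_of_csInf_lt ⟨1, one_mem A B⟩ h

theorem box_comm (A B : MM) : box A B = box B A := by
  have : ∀ A B : MM, boxSet A B ⊆ boxSet B A := by
    rintro A B ε ⟨h0, φ, ψ, I, h1, h2, h3, h4, h5⟩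
    refine ⟨h0, ψ, φ, I, h2, h1, h3, h4, fun s hs t ht => ?_⟩
    rw [abs_sub_comm]
    exact h5 s hs t ht
  unfold box
  rw [Subset.antisymm (this A B) (this B A)]

theorem box_tri_mem {A B C : MM} {ε ε' : ℝ} (h : ε ∈ boxSet A B) (h' : ε' ∈ boxSet B C) :
    ε + ε' ∈ boxSet A C := by
  obtain ⟨h0, φ, ψ, I, h1, h2, h3, h4, h5⟩ := h
  obtain ⟨h0', ψ', χ, J, h1', h2', h3', h4', h5'⟩ := h'
  obtain ⟨a, b, ha, hb, ha', hb', hab⟩ := glue h2.1 h1'.1 (h2.2.trans h1'.2.symm)
  rw [leb_real_iff] at h4 h4'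
  have hset : MeasurableSet {s | ψ (a s) = ψ' (b s)} :=
    measurableSet_eq_fun (h2.1.comp ha) (h1'.1.comp hb)
  have hset1 : 1 - 0 ≤ leb.real {s | ψ (a s) = ψ' (b s)} := by
    have : leb {s | ψ (a s) = ψ' (b s)} = 1 := (mem_ae_iff_prob_eq_one hset).1 hab
    simp [Measure.real, this]
  refine ⟨add_nonneg h0 h0', φ ∘ a, χ ∘ b, (a ⁻¹' I ∩ b ⁻¹' J) ∩ {s | ψ (a s) = ψ' (b s)},
    ⟨h1.1.comp ha, ?_⟩, ⟨h2'.1.comp hb, ?_⟩, ((ha h3).inter (hb h3')).inter hset, ?_, ?_⟩
  · rw [← Measure.map_map h1.1 ha, ha', h1.2]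
  · rw [← Measure.map_map h2'.1 hb, hb', h2'.2]
  · rw [leb_real_iff]
    have e1 : 1 - ε ≤ leb.real (a ⁻¹' I) := by rwa [map_real ha ha' h3]
    have e2 : 1 - ε' ≤ leb.real (b ⁻¹' J) := by rwa [map_real hb hb' h3']
    have := real_inter leb ((ha h3).inter (hb h3')) hset
      (real_inter leb (ha h3) (hb h3') e1 e2) hset1
    linarith
  · rintro s ⟨⟨hs1, hs2⟩, hs3⟩ t ⟨⟨ht1, ht2⟩, ht3⟩
    have e1 := h5 (a s) hs1 (a t) ht1
    have e2 := h5' (b s) hs2 (b t) ht2
    have hs3' : ψ (a s) = ψ' (b s) := hs3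
    have ht3' : ψ (a t) = ψ' (b t) := ht3
    rw [← hs3', ← ht3'] at e2
    show |dist (φ (a s)) (φ (a t)) - dist (χ (b s)) (χ (b t))| ≤ ε + ε'
    rw [abs_le] at *
    constructor <;> linarith [e1.1, e1.2, e2.1, e2.2]

theorem box_tri (A B C : MM) : box A C ≤ box A B + box B C := by
  refine le_of_forall_pos_le_add fun η hη => ?_
  obtain ⟨ε, h, hε⟩ := exists_lt_box (A := A) (B := B) (ε := box A B + η / 2) (by linarith)
  obtain ⟨ε', h', hε'⟩ := exists_lt_box (A := B) (B := C) (ε := box B C + η / 2) (by linarith)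
  have := box_le (box_tri_mem h h')
  linarith

theorem box_emb {A B : MM} (h : Emb A B) : box A B = 0 := by
  obtain ⟨j, hj, h⟩ := h
  obtain ⟨φ, hφ⟩ := exists_param A
  refine le_antisymm (box_le ⟨le_rfl, φ, j ∘ φ, univ, hφ, emb_param hj h hφ, MeasurableSet.univ,
    ?_, ?_⟩) (box_nonneg _ _)
  · rw [leb_univ]; simp
  · intro s _ t _
    simp [hj.dist_eq]

theorem box_iso {A B : MM} (h : MMIso A B) : box A B = 0 := by
  obtain ⟨Z, h1, h2⟩ := iso_emb h
  refine le_antisymm ?_ (box_nonneg _ _)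
  have := box_tri A Z B
  rw [box_comm A Z, box_emb h1, box_emb h2] at this
  simpa using this

theorem box_congr {A B A' B' : MM} (h : MMIso A A') (h' : MMIso B B') : box A B = box A' B' := by
  have key : ∀ A B A' B' : MM, MMIso A A' → MMIso B B' → box A B ≤ box A' B' := by
    intro A B A' B' h h'
    have h1 := box_tri A A' B
    have h2 := box_tri A' B' B
    rw [box_iso h] at h1
    rw [box_comm B' B, box_iso h'] at h2
    linarith
  exact le_antisymm (key _ _ _ _ h h') (key _ _ _ _ h.symm h'.symm)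

/-- The box distance on the set of mm-isomorphism classes. -/
noncomputable def boxD (x y : XX) : ℝ :=
  Quotient.liftOn₂ x y box fun _ _ _ _ h h' => box_congr h h'

/-- The (pseudo)metric space structure given by the box distance. -/
noncomputable abbrev boxPM : PseudoMetricSpace XX where
  dist := boxD
  dist_self x := Quotient.inductionOn x fun A => box_iso (MMIso.refl A)
  dist_comm x y := Quotient.inductionOn₂ x y fun A B => box_comm A B
  dist_triangle x y z := Quotient.inductionOn₃ x y z fun A B C => box_tri A B C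

/-- a measure-preserving map from the interval to the square -/
noncomputable def th : II → II × II := (exists_rep (leb.prod leb)).choose

theorem th_meas : Measurable th := (exists_rep (leb.prod leb)).choose_spec.1

theorem th_map : leb.map th = leb.prod leb := (exists_rep (leb.prod leb)).choose_spec.2

theorem th_fst : leb.map (fun s => (th s).1) = leb := by
  have : leb.map (fun s => (th s).1) = (leb.map th).map Prod.fst := by
    rw [Measure.map_map measurable_fst th_meas]; rfl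
  rw [this, th_map, Measure.map_fst_prod, measure_univ, one_smul]

theorem prod_param (B : MM) (l : ℝ) {φ : II → B.X} (hφ : IsParam B φ) :
    IsParam (B.prod l) (fun s => stretch B.X l (φ (th s).1, (th s).2)) := by
  have hm : Measurable (Prod.map φ (id : II → II)) := hφ.1.prodMap measurable_id
  refine ⟨(measurable_stretch B.X l).comp (hm.comp th_meas), ?_⟩
  show leb.map (stretch B.X l ∘ (Prod.map φ (id : II → II) ∘ th)) =
    (B.μ.prod leb).map (stretch B.X l)
  rw [← Measure.map_map (measurable_stretch B.X l) (hm.comp th_meas), ← Measure.map_map hm th_meas,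
    th_map, ← Measure.map_prod_map leb leb hφ.1 measurable_id, hφ.2, Measure.map_id]

theorem prod_dist (B : MM) (l : ℝ) (x y : B.X) (u v : II) :
    @dist (B.prod l).X _ (stretch B.X l (x, u)) (stretch B.X l (y, v)) =
      dist x y + |l * u - l * v| := rfl

theorem pt_param : IsParam pt (fun _ => ()) := by
  refine ⟨measurable_const, ?_⟩
  show leb.map (fun _ => ()) = Measure.dirac ()
  rw [Measure.map_const, measure_univ, one_smul]

theorem mix_param (A : MM) {κ l : ℝ} (hκ : 0 ≤ κ) (hl : 0 ≤ l) {φ : II → A.X}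
    (hφ : IsParam A φ) : ∃ χ, IsParam (mix A κ l) χ ∧ ∀ s t, dist (χ s) (χ t) =
      κ * dist (φ (th s).1) (φ (th t).1) + l * |((th s).2 : ℝ) - (th t).2| := by
  have key : ∀ u v : II, |l * (u : ℝ) - l * v| = l * |(u : ℝ) - v| := by
    intro u v
    rw [← mul_sub, abs_mul, abs_of_nonneg hl]
  rcases hκ.eq_or_lt with h | h
  · subst h
    rw [mix_nonpos A (lt_irrefl _)]
    refine ⟨_, prod_param pt l pt_param, fun s t => ?_⟩
    rw [prod_dist, dist_self, key, zero_mul]
  · rw [mix_pos A h]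
    have hφ' : IsParam (A.scale κ h) φ := hφ
    refine ⟨_, prod_param (A.scale κ h) l hφ', fun s t => ?_⟩
    rw [prod_dist, key]
    rfl

theorem mix_box_mem {A B : MM} {ε δ M κ κ' l l' : ℝ} (hε : ε ∈ boxSet A B) {K : Set A.X}
    (hK : MeasurableSet K) (hδ : 0 ≤ δ) (hKm : 1 - δ ≤ A.μ.real K)
    (hKM : ∀ x ∈ K, ∀ y ∈ K, dist x y ≤ M) (hκ : 0 ≤ κ) (hκ' : 0 ≤ κ') (hl : 0 ≤ l)
    (hl' : 0 ≤ l') :
    max (ε + δ) (κ' * ε + |κ - κ'| * M + |l - l'|) ∈ boxSet (mix A κ l) (mix B κ' l') := by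
  obtain ⟨h0, φ, ψ, I, h1, h2, h3, h4, h5⟩ := hε
  obtain ⟨χ, hχ, hχd⟩ := mix_param A hκ hl h1
  obtain ⟨ξ, hξ, hξd⟩ := mix_param B hκ' hl' h2
  rw [leb_real_iff] at h4
  have hth1 : Measurable (fun s => (th s).1) := measurable_fst.comp th_meas
  have hJ : MeasurableSet (I ∩ φ ⁻¹' K) := h3.inter (h1.1 hK)
  refine ⟨le_max_of_le_left (by linarith), χ, ξ, (fun s => (th s).1) ⁻¹' (I ∩ φ ⁻¹' K), hχ, hξ,
    hth1 hJ, ?_, ?_⟩
  · rw [leb_real_iff, map_real hth1 th_fst hJ]
    have e1 : 1 - δ ≤ leb.real (φ ⁻¹' K) := by rwa [map_real h1.1 h1.2 hK]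
    have e2 := real_inter leb h3 (h1.1 hK) h4 e1
    have e3 := le_max_left (ε + δ) (κ' * ε + |κ - κ'| * M + |l - l'|)
    linarith
  · rintro s ⟨hs1, hs2⟩ t ⟨ht1, ht2⟩
    refine le_max_of_le_right ?_
    rw [hχd, hξd]
    have e1 := h5 _ hs1 _ ht1
    have e2 := hKM _ hs2 _ ht2
    set d := dist (φ (th s).1) (φ (th t).1) with hd
    set d' := dist (ψ (th s).1) (ψ (th t).1) with hd'
    set w := |((th s).2 : ℝ) - (th t).2| with hw
    have hw0 : 0 ≤ w := abs_nonneg _
    have hw1 : w ≤ 1 := by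
      rw [hw, abs_le]
      have a1 := (th s).2.2
      have a2 := (th t).2.2
      exact ⟨by linarith [a1.1, a2.2], by linarith [a1.2, a2.1]⟩
    have hd0 : 0 ≤ d := dist_nonneg
    have : κ * d + l * w - (κ' * d' + l' * w) = (κ - κ') * d + κ' * (d - d') + (l - l') * w := by
      ring
    rw [this]
    refine (abs_add_le _ _).trans ?_
    refine add_le_add ((abs_add_le _ _).trans ?_) ?_
    · rw [abs_mul, abs_mul, abs_of_nonneg hd0, abs_of_nonneg hκ']
      have b1 : |κ - κ'| * d ≤ |κ - κ'| * M := mul_le_mul_of_nonneg_left e2 (abs_nonneg _)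
      have b2 : κ' * |d - d'| ≤ κ' * ε := mul_le_mul_of_nonneg_left e1 hκ'
      linarith
    · rw [abs_mul, abs_of_nonneg hw0]
      calc |l - l'| * w ≤ |l - l'| * 1 := mul_le_mul_of_nonneg_left hw1 (abs_nonneg _)
        _ = _ := mul_one _

/-- bounded sets of large measure -/
theorem exists_bdd (A : MM) {δ : ℝ} (hδ : 0 < δ) : ∃ (K : Set A.X) (M : ℝ), MeasurableSet K ∧
    1 - δ ≤ A.μ.real K ∧ 0 ≤ M ∧ ∀ x ∈ K, ∀ y ∈ K, dist x y ≤ M := by
  obtain ⟨x0⟩ : Nonempty A.X := inferInstance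
  have hmono : Monotone fun n : ℕ => Metric.closedBall x0 (n : ℝ) :=
    fun m n h => Metric.closedBall_subset_closedBall (by exact_mod_cast h)
  have hU : (⋃ n : ℕ, Metric.closedBall x0 (n : ℝ)) = univ := Metric.iUnion_closedBall_nat x0
  have ht := tendsto_measure_iUnion_atTop (μ := A.μ) hmono
  rw [hU, measure_univ] at ht
  have ht2 := (ENNReal.tendsto_toReal ENNReal.one_ne_top).comp ht
  rw [ENNReal.toReal_one] at ht2
  obtain ⟨n, hn⟩ := (ht2.eventually (lt_mem_nhds (show 1 - δ < 1 by linarith))).exists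
  refine ⟨Metric.closedBall x0 n, 2 * n, Metric.isClosed_closedBall.measurableSet, hn.le,
    by positivity, fun x hx y hy => ?_⟩
  have h1 : dist x x0 ≤ n := hx
  have h2 : dist y x0 ≤ n := hy
  have h3 := dist_triangle_right x y x0
  linarith

theorem mix_box (A : MM) {δ : ℝ} (hδ : 0 < δ) : ∃ M, 0 ≤ M ∧ ∀ (B : MM) (κ κ' l l' : ℝ), 0 ≤ κ →
    0 ≤ κ' → 0 ≤ l → 0 ≤ l' → box (mix A κ l) (mix B κ' l') ≤
      max (box A B + δ) (κ' * box A B + |κ - κ'| * M + |l - l'|) := by
  obtain ⟨K, M, hK, hKm, hM, hKM⟩ := exists_bdd A hδ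
  refine ⟨M, hM, fun B κ κ' l l' hκ hκ' hl hl' => ?_⟩
  have hc : Continuous fun ε : ℝ => max (ε + δ) (κ' * ε + |κ - κ'| * M + |l - l'|) := by
    fun_prop
  refine ge_of_tendsto (x := 𝓝[>] (box A B)) ((hc.tendsto _).mono_left nhdsWithin_le_nhds) ?_
  filter_upwards [self_mem_nhdsWithin] with ε hε
  obtain ⟨ε', h, hε'⟩ := exists_lt_box hε
  refine (box_le (mix_box_mem h hK hδ.le hKm hKM hκ hκ' hl hl')).trans ?_
  refine max_le_max (by linarith) ?_
  have := mul_le_mul_of_nonneg_left hε'.le hκ'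
  linarith

end Pool.Agent.R790.Mm
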