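import Pool.Agent.R790.Mm.Abs
import Pool.Agent.R790.Mm.Box

/-! The box topology: continuity of mixing, the tail of the distance. -/

set_option autoImplicit false

namespace Pool.Agent.R790.Mm

open MeasureTheory Set Topology Filter

theorem boxX_mk (A B : MM) : boxD (Quotient.mk mmSetoid A) (Quotient.mk mmSetoid B) = box A B := rfl

/-- continuity of mixing from an estimate -/
theorem mixCont_of [PseudoMetricSpace XX] (H : ∀ (x : XX) (κ l : NNReal) (δ : ℝ), 0 < δ →
    ∃ (b : XX × NNReal × NNReal → ℝ) (δ' : ℝ), δ' ≤ δ ∧ (∀ p : XX × NNReal × NNReal,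
      dist (mixX x κ l) (mixX p.1 p.2.1 p.2.2) ≤ b p) ∧
      Tendsto b (𝓝 (x, κ, l)) (𝓝 δ')) : MixCont := by
  unfold MixCont
  rw [continuous_iff_continuousAt]
  rintro ⟨x, κ, l⟩
  rw [ContinuousAt, Metric.tendsto_nhds]
  intro η hη
  obtain ⟨b, δ', hδ', hb, hb2⟩ := H x κ l (η / 2) (by linarith)
  filter_upwards [hb2.eventually (gt_mem_nhds (show δ' < η by linarith))] with p hp
  rw [dist_comm]
  exact lt_of_le_of_lt (hb p) hp

/-- the class of an mm-space -/
def cl (A : MM) : XX := Quotient.mk mmSetoid A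

theorem box_mixCont : @MixCont boxPM.toUniformSpace.toTopologicalSpace := by
  let _ : PseudoMetricSpace XX := boxPM
  refine mixCont_of fun x κ l δ hδ => ?_
  induction x using Quotient.inductionOn with
  | _ A =>
  obtain ⟨M, hM, h⟩ := mix_box A hδ
  refine ⟨fun p => max (dist (cl A) p.1 + δ)
    (p.2.1 * dist (cl A) p.1 + |(κ : ℝ) - p.2.1| * M + |(l : ℝ) - p.2.2|), δ, le_rfl, ?_, ?_⟩
  · rintro ⟨y, κ', l'⟩
    induction y using Quotient.inductionOn with
    | _ B =>
    exact h B κ κ' l l' κ.2 κ'.2 l.2 l'.2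
  · have hc : Continuous fun p : XX × NNReal × NNReal =>
        max (dist (cl A) p.1 + δ)
        (p.2.1 * dist (cl A) p.1 + |(κ : ℝ) - p.2.1| * M + |(l : ℝ) - p.2.2|) := by
      fun_prop
    have := hc.tendsto (cl A, κ, l)
    show Tendsto _ (𝓝 (cl A, κ, l)) (𝓝 δ)
    simpa [hδ.le] using this

/-- The tail of the distance of two independent random points. -/
noncomputable def TT (A : MM) (r : ℝ) : ℝ := (A.μ.prod A.μ).real {p | r < dist p.1 p.2}

theorem meas_dist {Y : Type} [MeasurableSpace Y] (A : MM) {f : Y → A.X} (hf : Measurable f)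
    (r : ℝ) : MeasurableSet {p : Y × Y | r < dist (f p.1) (f p.2)} :=
  measurableSet_lt measurable_const ((hf.comp measurable_fst).dist (hf.comp measurable_snd))

theorem TT_eq {Y : Type} [MeasurableSpace Y] {ν : Measure Y} [IsProbabilityMeasure ν] (A : MM)
    {f : Y → A.X} (hf : Measurable f) (h : ν.map f = A.μ) (r : ℝ) :
    TT A r = (ν.prod ν).real {p | r < dist (f p.1) (f p.2)} := by
  unfold TT
  have e : A.μ.prod A.μ = (ν.prod ν).map (Prod.map f f) := by
    rw [← Measure.map_prod_map ν ν hf hf, h]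
  have hs : MeasurableSet {p : A.X × A.X | r < dist p.1 p.2} := meas_dist A measurable_id r
  rw [e, map_measureReal_apply (hf.prodMap hf) hs]
  rfl

theorem TT_emb {A B : MM} (h : Emb A B) (r : ℝ) : TT A r = TT B r := by
  obtain ⟨j, hj, h⟩ := h
  rw [TT_eq B hj.continuous.measurable h r]
  simp only [hj.dist_eq]
  rfl

theorem TT_iso {A B : MM} (h : MMIso A B) : TT A = TT B := by
  obtain ⟨Z, h1, h2⟩ := iso_emb h
  funext r
  rw [← TT_emb h1, TT_emb h2]

/-- the tail on classes -/
noncomputable def TTX : XX → ℝ → ℝ := Quotient.lift TT fun _ _ h => TT_iso h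

theorem prod_bad {Y : Type} [MeasurableSpace Y] (ν : Measure Y) [IsProbabilityMeasure ν]
    {K : Set Y} (hK : MeasurableSet K) {a : ℝ} (h : 1 - a ≤ ν.real K) :
    (ν.prod ν).real (Prod.fst ⁻¹' Kᶜ ∪ Prod.snd ⁻¹' Kᶜ) ≤ a + a := by
  have h1 : ν.real Kᶜ ≤ a := by
    rw [real_compl ν hK]
    linarith
  refine (measureReal_union_le _ _).trans (add_le_add ?_ ?_)
  · rw [← map_measureReal_apply measurable_fst hK.compl, Measure.map_fst_prod, measure_univ,
      one_smul]
    exact h1
  · rw [← map_measureReal_apply measurable_snd hK.compl, Measure.map_snd_prod, measure_univ,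
      one_smul]
    exact h1

theorem TT_tf (A : MM) : TF (TT A) where
  anti r r' h := measureReal_mono fun p (hp : _ < _) => lt_of_le_of_lt h hp
  nonneg r := measureReal_nonneg
  le_one r := measureReal_le_one
  small p hp := by
    obtain ⟨K, M, hK, hKm, hM, hKM⟩ := exists_bdd A (δ := p / 2) (by linarith)
    refine ⟨M + 1, by linarith, ?_⟩
    have h1 := prod_bad A.μ hK hKm
    refine le_trans (measureReal_mono ?_) (h1.trans (by linarith))
    intro q hq
    have hq' : M + 1 < dist q.1 q.2 := hq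
    by_contra hc
    rw [mem_union, not_or] at hc
    have h3 : q.1 ∈ K := not_not.1 hc.1
    have h4 : q.2 ∈ K := not_not.1 hc.2
    have := hKM _ h3 _ h4
    linarith

theorem TT_near {A B : MM} {ε : ℝ} (h : box A B < ε) (r : ℝ) :
    TT B (r + 2 * ε) ≤ TT A r + 2 * ε := by
  obtain ⟨ε', hε, hlt⟩ := exists_lt_box h
  obtain ⟨h0, φ, ψ, I, h1, h2, h3, h4, h5⟩ := hε
  rw [leb_real_iff] at h4
  rw [TT_eq A h1.1 h1.2, TT_eq B h2.1 h2.2]
  have h6 := prod_bad leb h3 h4
  have h7 : {p : II × II | r + 2 * ε < dist (ψ p.1) (ψ p.2)} ⊆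
      {p : II × II | r < dist (φ p.1) (φ p.2)} ∪ (Prod.fst ⁻¹' Iᶜ ∪ Prod.snd ⁻¹' Iᶜ) := by
    intro p hp
    have hp' : r + 2 * ε < dist (ψ p.1) (ψ p.2) := hp
    by_contra hc
    rw [mem_union, mem_union, not_or, not_or] at hc
    have h3 : p.1 ∈ I := not_not.1 hc.2.1
    have h4 : p.2 ∈ I := not_not.1 hc.2.2
    have h8 : ¬ r < dist (φ p.1) (φ p.2) := hc.1
    have := (abs_le.1 (h5 _ h3 _ h4)).1
    push Not at h8
    linarith
  have h8 := (measureReal_mono (μ := leb.prod leb) h7).trans (measureReal_union_le _ _)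
  linarith

theorem TT_pos {A : MM} (h : ¬ IsPt A) : ∃ r > 0, 0 < TT A r := by
  by_contra hc
  push Not at hc
  apply h
  have h1 : ∀ n : ℕ, (A.μ.prod A.μ) {p | (1 / ((n : ℝ) + 1)) < dist p.1 p.2} = 0 := by
    intro n
    have h2 := le_antisymm (hc (1 / ((n : ℝ) + 1)) (by positivity)) ((TT_tf A).nonneg _)
    exact (measureReal_eq_zero_iff).1 h2
  have h3 : ∀ᵐ p ∂(A.μ.prod A.μ), p.1 = p.2 := by
    have h4 : ∀ᵐ p ∂(A.μ.prod A.μ), ∀ n : ℕ, ¬ (1 / ((n : ℝ) + 1)) < dist p.1 p.2 := by
      rw [ae_all_iff]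
      intro n
      rw [ae_iff]
      simpa using h1 n
    filter_upwards [h4] with p hp
    by_contra hne
    obtain ⟨n, hn⟩ := exists_nat_one_div_lt (dist_pos.2 hne)
    exact hp n hn
  have h5 := Measure.ae_ae_of_ae_prod h3
  obtain ⟨x, hx⟩ := h5.exists
  refine ⟨x, (mem_ae_iff_prob_eq_one (measurableSet_singleton x)).1 ?_⟩
  filter_upwards [hx] with y hy
  exact (show x = y from hy).symm

theorem TT_scale (A : MM) (t : ℝ) (ht : 0 < t) (r : ℝ) : TT (A.scale t ht) r = TT A (r / t) := by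
  show (A.μ.prod A.μ).real {p | r < t * dist p.1 p.2} = (A.μ.prod A.μ).real
    {p | r / t < dist p.1 p.2}
  congr 1
  ext p
  show r < t * dist p.1 p.2 ↔ r / t < dist p.1 p.2
  rw [div_lt_iff₀ ht, mul_comm]

theorem box_tfam : @TFam boxPM TTX := by
  let _ : PseudoMetricSpace XX := boxPM
  refine ⟨?_, ?_, ?_, ?_⟩
  · intro x
    induction x using Quotient.inductionOn with
    | _ A => exact TT_tf A
  · intro x y ε h r _
    induction x using Quotient.inductionOn with
    | _ A =>
    induction y using Quotient.inductionOn with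
    | _ B => exact TT_near (A := A) (B := B) h r
  · intro x hx
    induction x using Quotient.inductionOn with
    | _ A => exact TT_pos fun h => hx (eqX.2 (isPt_iff.1 h))
  · intro x t ht r
    induction x using Quotient.inductionOn with
    | _ A => exact TT_scale A t ht r

end Pool.Agent.R790.Mm
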