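import Pool.Agent.R790.Mm.Box

/-! The observable distance. -/

set_option autoImplicit false

namespace Pool.Agent.R790.Mm

open MeasureTheory Set Topology Filter

/-- The Ky Fan distance. -/
noncomputable def ky (f g : II → ℝ) : ℝ :=
  sInf {ε | 0 ≤ ε ∧ leb {s | ε < |f s - g s|} ≤ ENNReal.ofReal ε}

/-- The Hausdorff distance for the Ky Fan distance. -/
noncomputable def hausd (F G : Set (II → ℝ)) : ℝ :=
  sInf {ε | 0 ≤ ε ∧ (∀ f ∈ F, ∃ g ∈ G, ky f g ≤ ε) ∧ ∀ g ∈ G, ∃ f ∈ F, ky f g ≤ ε}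

/-- The set of the functions `f ∘ φ`, where `f` is `1`-Lipschitz. -/
def lipSet (A : MM) (φ : II → A.X) : Set (II → ℝ) :=
  {h | ∃ f : A.X → ℝ, LipschitzWith 1 f ∧ h = f ∘ φ}

/-- The observable distance of two mm-spaces. -/
noncomputable def conc (A B : MM) : ℝ :=
  sInf {d | ∃ (φ : II → A.X) (ψ : II → B.X), IsParam A φ ∧ IsParam B ψ ∧
    d = hausd (lipSet A φ) (lipSet B ψ)}

/-- one half of the comparison of Lipschitz functions -/
def Half (A B : MM) (φ : II → A.X) (ψ : II → B.X) (ε : ℝ) : Prop :=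
  ∀ f : A.X → ℝ, LipschitzWith 1 f → ∃ g : B.X → ℝ, LipschitzWith 1 g ∧
    leb {s | ε < |f (φ s) - g (ψ s)|} ≤ ENNReal.ofReal ε

/-- an explicit form of the comparison -/
def concSet (A B : MM) : Set ℝ :=
  {ε | 0 ≤ ε ∧ ∃ (φ : II → A.X) (ψ : II → B.X), IsParam A φ ∧ IsParam B ψ ∧ Half A B φ ψ ε ∧
    Half B A ψ φ ε}

theorem ky_le {f g : II → ℝ} {ε : ℝ} (h0 : 0 ≤ ε)
    (h : leb {s | ε < |f s - g s|} ≤ ENNReal.ofReal ε) : ky f g ≤ ε :=
  csInf_le ⟨0, fun _ hx => hx.1⟩ ⟨h0, h⟩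

theorem ky_le_one (f g : II → ℝ) : ky f g ≤ 1 :=
  ky_le zero_le_one (by rw [ENNReal.ofReal_one]; exact prob_le_one)

theorem of_ky_lt {f g : II → ℝ} {ε : ℝ} (h : ky f g < ε) :
    leb {s | ε < |f s - g s|} ≤ ENNReal.ofReal ε := by
  have hne : {ε | 0 ≤ ε ∧ leb {s | ε < |f s - g s|} ≤ ENNReal.ofReal ε}.Nonempty :=
    ⟨1, zero_le_one, by rw [ENNReal.ofReal_one]; exact prob_le_one⟩
  obtain ⟨ε', ⟨h0, h1⟩, h2⟩ := exists_lt_of_csInf_lt hne h
  refine (measure_mono ?_).trans (h1.trans (ENNReal.ofReal_le_ofReal h2.le))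
  intro s hs
  exact lt_trans h2 hs

theorem ky_comm (f g : II → ℝ) : ky f g = ky g f := by
  unfold ky
  simp only [abs_sub_comm]

theorem hausd_nonneg (F G : Set (II → ℝ)) : 0 ≤ hausd F G := Real.sInf_nonneg fun _ hx => hx.1

theorem lipSet_nonempty (A : MM) (φ : II → A.X) : (lipSet A φ).Nonempty :=
  ⟨_, fun _ => 0, LipschitzWith.const' 0, rfl⟩

theorem conc_le {A B : MM} {ε : ℝ} (h : ε ∈ concSet A B) : conc A B ≤ ε := by
  obtain ⟨h0, φ, ψ, h1, h2, h3, h4⟩ := h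
  have e1 : conc A B ≤ hausd (lipSet A φ) (lipSet B ψ) := by
    refine csInf_le ⟨0, ?_⟩ ⟨φ, ψ, h1, h2, rfl⟩
    rintro d ⟨_, _, _, _, rfl⟩
    exact hausd_nonneg _ _
  refine e1.trans (csInf_le ⟨0, fun _ hx => hx.1⟩ ⟨h0, ?_, ?_⟩)
  · rintro _ ⟨f, hf, rfl⟩
    obtain ⟨g, hg, hfg⟩ := h3 f hf
    exact ⟨_, ⟨g, hg, rfl⟩, ky_le h0 hfg⟩
  · rintro _ ⟨g, hg, rfl⟩
    obtain ⟨f, hf, hfg⟩ := h4 g hg
    refine ⟨_, ⟨f, hf, rfl⟩, ?_⟩
    rw [ky_comm]
    exact ky_le h0 hfg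

theorem mem_concSet {A B : MM} {ε : ℝ} (h : conc A B < ε) : ε ∈ concSet A B := by
  have hne : {d | ∃ (φ : II → A.X) (ψ : II → B.X), IsParam A φ ∧ IsParam B ψ ∧
      d = hausd (lipSet A φ) (lipSet B ψ)}.Nonempty := by
    obtain ⟨φ, hφ⟩ := exists_param A
    obtain ⟨ψ, hψ⟩ := exists_param B
    exact ⟨_, φ, ψ, hφ, hψ, rfl⟩
  obtain ⟨d, ⟨φ, ψ, hφ, hψ, rfl⟩, hd⟩ := exists_lt_of_csInf_lt hne h
  have hne2 : {ε | 0 ≤ ε ∧ (∀ f ∈ lipSet A φ, ∃ g ∈ lipSet B ψ, ky f g ≤ ε) ∧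
      ∀ g ∈ lipSet B ψ, ∃ f ∈ lipSet A φ, ky f g ≤ ε}.Nonempty := by
    obtain ⟨f, hf⟩ := lipSet_nonempty A φ
    obtain ⟨g, hg⟩ := lipSet_nonempty B ψ
    exact ⟨1, zero_le_one, fun f' _ => ⟨g, hg, ky_le_one _ _⟩, fun g' _ => ⟨f, hf, ky_le_one _ _⟩⟩
  obtain ⟨ε', ⟨h0, h1, h2⟩, h3⟩ := exists_lt_of_csInf_lt hne2 hd
  refine ⟨by linarith, φ, ψ, hφ, hψ, ?_, ?_⟩
  · intro f hf
    obtain ⟨_, ⟨g, hg, rfl⟩, hfg⟩ := h1 _ ⟨f, hf, rfl⟩
    exact ⟨g, hg, of_ky_lt (lt_of_le_of_lt hfg h3)⟩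
  · intro g hg
    obtain ⟨_, ⟨f, hf, rfl⟩, hfg⟩ := h2 _ ⟨g, hg, rfl⟩
    rw [ky_comm] at hfg
    exact ⟨f, hf, of_ky_lt (lt_of_le_of_lt hfg h3)⟩

theorem conc_nonneg (A B : MM) : 0 ≤ conc A B := by
  refine Real.sInf_nonneg ?_
  rintro d ⟨_, _, _, _, rfl⟩
  exact hausd_nonneg _ _

theorem concSet_symm {A B : MM} {ε : ℝ} (h : ε ∈ concSet A B) : ε ∈ concSet B A := by
  obtain ⟨h0, φ, ψ, h1, h2, h3, h4⟩ := h
  exact ⟨h0, ψ, φ, h2, h1, h4, h3⟩

theorem conc_comm (A B : MM) : conc A B = conc B A := by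
  have key : ∀ A B : MM, conc A B ≤ conc B A := fun A B =>
    le_of_forall_gt_imp_ge_of_dense fun ε hε => conc_le (concSet_symm (mem_concSet hε))
  exact le_antisymm (key A B) (key B A)

theorem half_meas {A B : MM} {φ : II → A.X} {ψ : II → B.X} (hφ : Measurable φ)
    (hψ : Measurable ψ) {f : A.X → ℝ} {g : B.X → ℝ} (hf : LipschitzWith 1 f)
    (hg : LipschitzWith 1 g) (ε : ℝ) : MeasurableSet {s | ε < |f (φ s) - g (ψ s)|} :=
  measurableSet_lt measurable_const ((hf.continuous.measurable.comp hφ).sub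
    (hg.continuous.measurable.comp hψ)).abs

theorem half_comp {A B C : MM} {φ : II → A.X} {ψ ψ' : II → B.X} {χ : II → C.X} {ε ε' : ℝ}
    (h0 : 0 ≤ ε) (h0' : 0 ≤ ε')
    (hφ : Measurable φ) (hψ : Measurable ψ) (hψ' : Measurable ψ') (hχ : Measurable χ)
    (h : Half A B φ ψ ε) (h' : Half B C ψ' χ ε') {a b : II → II} (ha : Measurable a)
    (hb : Measurable b) (ha' : leb.map a = leb) (hb' : leb.map b = leb)
    (hab : ∀ᵐ s ∂leb, ψ (a s) = ψ' (b s)) : Half A C (φ ∘ a) (χ ∘ b) (ε + ε') := by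
  intro f hf
  obtain ⟨g, hg, hfg⟩ := h f hf
  obtain ⟨k, hk, hgk⟩ := h' g hg
  refine ⟨k, hk, ?_⟩
  have e1 : leb (a ⁻¹' {s | ε < |f (φ s) - g (ψ s)|}) ≤ ENNReal.ofReal ε := by
    rw [← Measure.map_apply ha (half_meas hφ hψ hf hg ε), ha']
    exact hfg
  have e2 : leb (b ⁻¹' {s | ε' < |g (ψ' s) - k (χ s)|}) ≤ ENNReal.ofReal ε' := by
    rw [← Measure.map_apply hb (half_meas hψ' hχ hg hk ε'), hb']
    exact hgk
  have e3 : leb {s | ¬ ψ (a s) = ψ' (b s)} = 0 := ae_iff.1 hab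
  have e4 : {s | ε + ε' < |f ((φ ∘ a) s) - k ((χ ∘ b) s)|} ⊆
      (a ⁻¹' {s | ε < |f (φ s) - g (ψ s)|} ∪ b ⁻¹' {s | ε' < |g (ψ' s) - k (χ s)|}) ∪
        {s | ¬ ψ (a s) = ψ' (b s)} := by
    intro s hs
    by_contra hc
    simp only [mem_union, not_or] at hc
    obtain ⟨⟨hc1, hc2⟩, hc3⟩ := hc
    have c1 : |f (φ (a s)) - g (ψ (a s))| ≤ ε := not_lt.1 hc1
    have c2 : |g (ψ' (b s)) - k (χ (b s))| ≤ ε' := not_lt.1 hc2
    have c3 : ψ (a s) = ψ' (b s) := not_not.1 hc3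
    rw [← c3] at c2
    have c4 : ε + ε' < |f (φ (a s)) - k (χ (b s))| := hs
    have := abs_sub_le (f (φ (a s))) (g (ψ (a s))) (k (χ (b s)))
    linarith
  calc leb {s | ε + ε' < |f ((φ ∘ a) s) - k ((χ ∘ b) s)|}
      ≤ leb ((a ⁻¹' {s | ε < |f (φ s) - g (ψ s)|} ∪ b ⁻¹' {s | ε' < |g (ψ' s) - k (χ s)|}) ∪
        {s | ¬ ψ (a s) = ψ' (b s)}) := measure_mono e4
    _ ≤ leb (a ⁻¹' {s | ε < |f (φ s) - g (ψ s)|} ∪ b ⁻¹' {s | ε' < |g (ψ' s) - k (χ s)|}) +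
        leb {s | ¬ ψ (a s) = ψ' (b s)} := measure_union_le _ _
    _ ≤ (leb (a ⁻¹' {s | ε < |f (φ s) - g (ψ s)|}) +
        leb (b ⁻¹' {s | ε' < |g (ψ' s) - k (χ s)|})) + 0 :=
          add_le_add (measure_union_le _ _) e3.le
    _ ≤ (ENNReal.ofReal ε + ENNReal.ofReal ε') + 0 := by gcongr
    _ = ENNReal.ofReal (ε + ε') := by rw [add_zero, ENNReal.ofReal_add h0 h0']

theorem conc_tri_mem {A B C : MM} {ε ε' : ℝ} (h : ε ∈ concSet A B) (h' : ε' ∈ concSet B C) :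
    ε + ε' ∈ concSet A C := by
  obtain ⟨h0, φ, ψ, h1, h2, h3, h4⟩ := h
  obtain ⟨h0', ψ', χ, h1', h2', h3', h4'⟩ := h'
  obtain ⟨a, b, ha, hb, ha', hb', hab⟩ := glue h2.1 h1'.1 (h2.2.trans h1'.2.symm)
  refine ⟨add_nonneg h0 h0', φ ∘ a, χ ∘ b, ⟨h1.1.comp ha, ?_⟩, ⟨h2'.1.comp hb, ?_⟩, ?_, ?_⟩
  · rw [← Measure.map_map h1.1 ha, ha', h1.2]
  · rw [← Measure.map_map h2'.1 hb, hb', h2'.2]
  · exact half_comp h0 h0' h1.1 h2.1 h1'.1 h2'.1 h3 h3' ha hb ha' hb' hab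
  · rw [add_comm]
    refine half_comp h0' h0 h2'.1 h1'.1 h2.1 h1.1 h4' h4 hb ha hb' ha' ?_
    filter_upwards [hab] with s hs using hs.symm

theorem conc_tri (A B C : MM) : conc A C ≤ conc A B + conc B C := by
  refine le_of_forall_pos_le_add fun η hη => ?_
  have h1 := mem_concSet (A := A) (B := B) (ε := conc A B + η / 2) (by linarith)
  have h2 := mem_concSet (A := B) (B := C) (ε := conc B C + η / 2) (by linarith)
  have := conc_le (conc_tri_mem h1 h2)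
  linarith

/-- the comparison of Lipschitz functions from a small distortion -/
theorem half_of_box {A B : MM} {φ : II → A.X} {ψ : II → B.X} {I : Set II} {ε : ℝ}
    (hI : MeasurableSet I) (hI2 : 1 - ε ≤ leb.real I)
    (hd : ∀ s ∈ I, ∀ t ∈ I, |dist (φ s) (φ t) - dist (ψ s) (ψ t)| ≤ ε) : Half A B φ ψ ε := by
  intro f hf
  rcases I.eq_empty_or_nonempty with hIe | ⟨s0, hs0⟩
  · refine ⟨fun _ => 0, LipschitzWith.const' 0, prob_le_one.trans ?_⟩
    rw [hIe] at hI2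
    simp only [measureReal_empty] at hI2
    rw [← ENNReal.ofReal_one]
    exact ENNReal.ofReal_le_ofReal (by linarith)
  · have hfd : ∀ x y, f x - f y ≤ dist x y := fun x y => by
      have := hf.dist_le_mul x y
      rw [NNReal.coe_one, one_mul, Real.dist_eq] at this
      exact (le_abs_self _).trans this
    let g : B.X → ℝ := fun y => ⨅ s : I, f (φ s) + dist y (ψ s)
    have hne : Nonempty I := ⟨⟨s0, hs0⟩⟩
    have hbdd : ∀ y, BddBelow (range fun s : I => f (φ s) + dist y (ψ s)) := by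
      intro y
      refine ⟨f (φ s0) - ε - dist y (ψ s0), ?_⟩
      rintro _ ⟨s, rfl⟩
      have h1 := hfd (φ s0) (φ s)
      have h2 := (abs_le.1 (hd s0 hs0 s s.2)).2
      have h3 := dist_triangle_left (ψ s0) (ψ s) y
      show _ ≤ f (φ s) + dist y (ψ s)
      linarith
    have hg : LipschitzWith 1 g := by
      refine LipschitzWith.of_le_add fun y z => ?_
      rw [← sub_le_iff_le_add]
      refine le_ciInf fun s => ?_
      have h1 := ciInf_le (hbdd y) s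
      have h2 := dist_triangle y z (ψ s)
      show g y - dist y z ≤ f (φ s) + dist z (ψ s)
      have h3 : g y ≤ f (φ s) + dist y (ψ s) := h1
      linarith
    refine ⟨g, hg, ?_⟩
    have hsub : {s | ε < |f (φ s) - g (ψ s)|} ⊆ Iᶜ := by
      intro s hs hsI
      have hs' : ε < |f (φ s) - g (ψ s)| := hs
      have h1 : g (ψ s) ≤ f (φ s) := by
        have := ciInf_le (hbdd (ψ s)) ⟨s, hsI⟩
        simpa using this
      have h2 : f (φ s) - ε ≤ g (ψ s) := by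
        refine le_ciInf fun t => ?_
        have h3 := hfd (φ s) (φ t)
        have h4 := (abs_le.1 (hd s hsI t t.2)).2
        linarith
      have : |f (φ s) - g (ψ s)| ≤ ε := abs_le.2 ⟨by
        have : 0 ≤ ε := (abs_nonneg _).trans (hd s hsI s hsI)
        linarith, by linarith⟩
      linarith
    refine (measure_mono hsub).trans ?_
    have h5 : leb.real Iᶜ ≤ ε := by
      rw [real_compl leb hI]
      linarith
    rw [← ENNReal.ofReal_toReal (measure_ne_top leb Iᶜ)]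
    exact ENNReal.ofReal_le_ofReal h5

theorem conc_of_box {A B : MM} {ε : ℝ} (h : ε ∈ boxSet A B) : ε ∈ concSet A B := by
  obtain ⟨h0, φ, ψ, I, h1, h2, h3, h4, h5⟩ := h
  rw [leb_real_iff] at h4
  refine ⟨h0, φ, ψ, h1, h2, half_of_box h3 h4 h5, half_of_box h3 h4 fun s hs t ht => ?_⟩
  rw [abs_sub_comm]
  exact h5 s hs t ht

/-- `d_conc ≤ □` -/
theorem conc_le_box (A B : MM) : conc A B ≤ box A B := by
  refine le_of_forall_gt_imp_ge_of_dense fun ε hε => ?_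
  obtain ⟨ε', h, h'⟩ := exists_lt_box hε
  exact (conc_le (conc_of_box h)).trans h'.le

theorem conc_iso {A B : MM} (h : MMIso A B) : conc A B = 0 :=
  le_antisymm ((conc_le_box A B).trans (box_iso h).le) (conc_nonneg _ _)

theorem conc_congr {A B A' B' : MM} (h : MMIso A A') (h' : MMIso B B') :
    conc A B = conc A' B' := by
  have key : ∀ A B A' B' : MM, MMIso A A' → MMIso B B' → conc A B ≤ conc A' B' := by
    intro A B A' B' h h'
    have h1 := conc_tri A A' B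
    have h2 := conc_tri A' B' B
    rw [conc_iso h] at h1
    rw [conc_comm B' B, conc_iso h'] at h2
    linarith
  exact le_antisymm (key _ _ _ _ h h') (key _ _ _ _ h.symm h'.symm)

/-- The observable distance on the set of mm-isomorphism classes. -/
noncomputable def concD (x y : XX) : ℝ :=
  Quotient.liftOn₂ x y conc fun _ _ _ _ h h' => conc_congr h h'

/-- The (pseudo)metric space structure given by the observable distance. -/
noncomputable abbrev concPM : PseudoMetricSpace XX where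
  dist := concD
  dist_self x := Quotient.inductionOn x fun A => conc_iso (MMIso.refl A)
  dist_comm x y := Quotient.inductionOn₂ x y fun A B => conc_comm A B
  dist_triangle x y z := Quotient.inductionOn₃ x y z fun A B C => conc_tri A B C

end Pool.Agent.R790.Mm
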