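import Pool.Agent.R790.Mm.BoxMain
import Pool.Agent.R790.Mm.Conc

/-! The concentration topology: continuity of mixing, the observable tail. -/

set_option autoImplicit false

namespace Pool.Agent.R790.Mm

open MeasureTheory Set Topology Filter

theorem lip_sub_le {Y : Type} [MetricSpace Y] {f : Y → ℝ} (hf : LipschitzWith 1 f) (x y : Y) :
    f x - f y ≤ dist x y := by
  have := hf.dist_le_mul x y
  rw [NNReal.coe_one, one_mul, Real.dist_eq] at this
  exact (le_abs_self _).trans this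

theorem exists_net (n : ℕ) (hn : 0 < n) (u : II) : ∃ i : Fin (n + 1), |(u : ℝ) - i / n| ≤ 1 / n := by
  have hn' : (0 : ℝ) < n := by exact_mod_cast hn
  have h0 : (0 : ℝ) ≤ u := u.2.1
  have h1 : (u : ℝ) < 1 := u.2.2
  have h2 : (⌊(n : ℝ) * u⌋₊ : ℝ) ≤ n * u := Nat.floor_le (by positivity)
  have h3 : (n : ℝ) * u < ⌊(n : ℝ) * u⌋₊ + 1 := Nat.lt_floor_add_one _
  have h4 : ⌊(n : ℝ) * u⌋₊ < n + 1 := by
    have : (⌊(n : ℝ) * u⌋₊ : ℝ) < n + 1 := by
      have : (n : ℝ) * u ≤ n := by nlinarith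
      linarith
    exact_mod_cast this
  refine ⟨⟨_, h4⟩, ?_⟩
  show |(u : ℝ) - (⌊(n : ℝ) * u⌋₊ : ℝ) / n| ≤ 1 / n
  have e : (u : ℝ) - (⌊(n : ℝ) * u⌋₊ : ℝ) / n = (n * u - ⌊(n : ℝ) * u⌋₊) / n := by
    field_simp
  rw [e, abs_of_nonneg (div_nonneg (by linarith) hn'.le)]
  exact div_le_div_of_nonneg_right (by linarith) hn'.le

theorem half_mix {A B : MM} {φ : II → A.X} {ψ : II → B.X} {ε κ l : ℝ} (hκ : 0 < κ) (hl : 0 ≤ l)
    (hφ : Measurable φ) (hψ : Measurable ψ) (h : Half A B φ ψ ε) (n : ℕ)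
    (hn : 0 < n) : Half ((A.scale κ hκ).prod l) ((B.scale κ hκ).prod l)
    (fun s => stretch A.X l (φ (th s).1, (th s).2))
    (fun s => stretch B.X l (ψ (th s).1, (th s).2)) (max ((n + 1) * ε) (κ * ε + 2 * l / n)) := by
  intro (F : A.X × ℝ → ℝ) hF
  have hn' : (0 : ℝ) < n := by exact_mod_cast hn
  have hF1 : ∀ p q : A.X × ℝ, F p - F q ≤ κ * dist p.1 q.1 + |p.2 - q.2| := fun p q =>
    lip_sub_le hF p q
  let z : Fin (n + 1) → ℝ := fun i => l * (i / n)
  have hlip : ∀ i, LipschitzWith 1 fun x : A.X => F (x, z i) / κ := by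
    intro i
    refine LipschitzWith.of_le_add fun x y => ?_
    have h1 := hF1 (x, z i) (y, z i)
    simp only [sub_self, abs_zero, add_zero] at h1
    rw [div_le_iff₀ hκ, add_mul, div_mul_cancel₀ _ hκ.ne']
    linarith
  choose g hg hgm using fun i => h _ (hlip i)
  let G : B.X × ℝ → ℝ := fun p => Finset.univ.inf' Finset.univ_nonempty
    fun i => κ * g i p.1 + |p.2 - z i|
  have hG : @LipschitzWith ((B.scale κ hκ).prod l).X ℝ _ _ 1 G := by
    refine LipschitzWith.of_le_add fun (p q : B.X × ℝ) => ?_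
    show G p ≤ G q + (κ * dist p.1 q.1 + |p.2 - q.2|)
    rw [← sub_le_iff_le_add]
    refine Finset.le_inf' _ _ fun i _ => ?_
    have h1 : G p ≤ κ * g i p.1 + |p.2 - z i| := Finset.inf'_le _ (Finset.mem_univ i)
    have h2 := lip_sub_le (hg i) p.1 q.1
    have h3 := mul_le_mul_of_nonneg_left h2 hκ.le
    have h4 := abs_sub_le p.2 q.2 (z i)
    linarith
  refine ⟨G, hG, ?_⟩
  have hth1 : Measurable (fun s => (th s).1) := measurable_fst.comp th_meas
  let bad : Fin (n + 1) → Set II := fun i => {s | ε < |F (φ s, z i) / κ - g i (ψ s)|}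
  have hbad : ∀ i, leb ((fun s => (th s).1) ⁻¹' bad i) ≤ ENNReal.ofReal ε := by
    intro i
    have hm : MeasurableSet (bad i) := half_meas (f := fun x => F (x, z i) / κ) hφ hψ (hlip i)
      (hg i) ε
    rw [← Measure.map_apply hth1 hm, th_fst]
    exact hgm i
  have hsub : {s | max ((n + 1) * ε) (κ * ε + 2 * l / n) <
      |F (stretch A.X l (φ (th s).1, (th s).2)) - G (stretch B.X l (ψ (th s).1, (th s).2))|} ⊆
      ⋃ i, (fun s => (th s).1) ⁻¹' bad i := by
    intro s hs
    by_contra hc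
    simp only [mem_iUnion, not_exists] at hc
    have hc' : ∀ i, |F (φ (th s).1, z i) / κ - g i (ψ (th s).1)| ≤ ε := fun i => not_lt.1 (hc i)
    set x := φ (th s).1 with hx
    set y := ψ (th s).1 with hy
    set u := (th s).2 with hu
    have hc2 : ∀ i, |F (x, z i) - κ * g i y| ≤ κ * ε := by
      intro i
      have e : F (x, z i) - κ * g i y = κ * (F (x, z i) / κ - g i y) := by
        field_simp
      rw [e, abs_mul, abs_of_pos hκ]
      exact mul_le_mul_of_nonneg_left (hc' i) hκ.le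
    have hs' : max ((n + 1) * ε) (κ * ε + 2 * l / n) < |F (x, l * u) - G (y, l * u)| := hs
    have h1 : F (x, l * u) - κ * ε ≤ G (y, l * u) := by
      refine Finset.le_inf' _ _ fun i _ => ?_
      have h2 := hF1 (x, l * u) (x, z i)
      simp only [dist_self, mul_zero, zero_add] at h2
      have h3 := (abs_le.1 (hc2 i)).2
      show F (x, l * u) - κ * ε ≤ κ * g i y + |l * u - z i|
      linarith
    have h2 : G (y, l * u) ≤ F (x, l * u) + κ * ε + 2 * l / n := by
      obtain ⟨i, hi⟩ := exists_net n hn u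
      have h1 : G (y, l * u) ≤ κ * g i y + |l * u - z i| := Finset.inf'_le _ (Finset.mem_univ i)
      have h2 := hF1 (x, z i) (x, l * u)
      simp only [dist_self, mul_zero, zero_add] at h2
      have h3 := (abs_le.1 (hc2 i)).1
      have h4 : |l * u - z i| ≤ l / n := by
        have : l * (u : ℝ) - z i = l * (u - i / n) := by
          show l * (u : ℝ) - l * (i / n) = _
          ring
        rw [this, abs_mul, abs_of_nonneg hl]
        calc l * |(u : ℝ) - i / n| ≤ l * (1 / n) := mul_le_mul_of_nonneg_left hi hl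
          _ = l / n := by ring
      rw [abs_sub_comm] at h2
      have h5 : 2 * l / n = l / n + l / n := by ring
      linarith
    have h3 : |F (x, l * u) - G (y, l * u)| ≤ κ * ε + 2 * l / n := by
      have : 0 ≤ 2 * l / n := by positivity
      rw [abs_le]
      constructor <;> linarith
    have := le_max_right ((n + 1) * ε) (κ * ε + 2 * l / n)
    linarith
  calc leb {s | max ((n + 1) * ε) (κ * ε + 2 * l / n) <
      |F (stretch A.X l (φ (th s).1, (th s).2)) - G (stretch B.X l (ψ (th s).1, (th s).2))|}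
      ≤ leb (⋃ i, (fun s => (th s).1) ⁻¹' bad i) := measure_mono hsub
    _ ≤ ∑ i, leb ((fun s => (th s).1) ⁻¹' bad i) := measure_iUnion_fintype_le _ _
    _ ≤ ∑ _i : Fin (n + 1), ENNReal.ofReal ε := Finset.sum_le_sum fun i _ => hbad i
    _ = ENNReal.ofReal ((n + 1) * ε) := by
        rw [Finset.sum_const, Finset.card_univ, Fintype.card_fin, nsmul_eq_mul,
          ENNReal.ofReal_mul (by positivity)]
        congr 1
        rw [← ENNReal.ofReal_natCast]
        push_cast
        rfl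
    _ ≤ _ := ENNReal.ofReal_le_ofReal (le_max_left _ _)

theorem conc_mix_mem {A B : MM} {ε κ l : ℝ} (hκ : 0 < κ) (hl : 0 ≤ l) (h : ε ∈ concSet A B)
    (n : ℕ) (hn : 0 < n) : max ((n + 1) * ε) (κ * ε + 2 * l / n) ∈
      concSet (mix A κ l) (mix B κ l) := by
  obtain ⟨h0, φ, ψ, h1, h2, h3, h4⟩ := h
  rw [mix_pos A hκ, mix_pos B hκ]
  have h1' : IsParam (A.scale κ hκ) φ := h1
  have h2' : IsParam (B.scale κ hκ) ψ := h2
  exact ⟨le_max_of_le_left (by positivity), _, _, prod_param _ l h1', prod_param _ l h2',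
    half_mix hκ hl h1.1 h2.1 h3 n hn, half_mix hκ hl h2.1 h1.1 h4 n hn⟩

theorem mix_conc (A : MM) {δ : ℝ} (hδ : 0 < δ) : ∃ M, 0 ≤ M ∧ ∀ (B : MM) (κ κ' l l' : ℝ), 0 ≤ κ →
    0 ≤ κ' → 0 ≤ l → 0 ≤ l' → ∀ n : ℕ, 0 < n → conc (mix A κ l) (mix B κ' l') ≤
      max δ (|κ - κ'| * M + |l - l'|) +
        max ((n + 1) * conc A B) (κ' * conc A B + 2 * l' / n) := by
  obtain ⟨K, M, hK, hKm, hM, hKM⟩ := exists_bdd A hδ
  refine ⟨M, hM, fun B κ κ' l l' hκ hκ' hl hl' n hn => ?_⟩
  have h0 : (0 : ℝ) ∈ boxSet A A := by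
    obtain ⟨φ, hφ⟩ := exists_param A
    exact ⟨le_rfl, φ, φ, univ, hφ, hφ, MeasurableSet.univ, by rw [leb_univ]; simp, by simp⟩
  have h1 : conc (mix A κ l) (mix A κ' l') ≤ max δ (|κ - κ'| * M + |l - l'|) := by
    have := conc_le (conc_of_box (mix_box_mem h0 hK hδ.le hKm hKM hκ hκ' hl hl'))
    simpa using this
  have h2 : conc (mix A κ' l') (mix B κ' l') ≤
      max ((n + 1) * conc A B) (κ' * conc A B + 2 * l' / n) := by
    rcases hκ'.eq_or_lt with hk | hk
    · subst hk
      rw [mix_nonpos A (lt_irrefl _), mix_nonpos B (lt_irrefl _), conc_iso (MMIso.refl _)]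
      exact le_max_of_le_left (mul_nonneg (by positivity) (conc_nonneg _ _))
    · have hc : Continuous fun ε : ℝ => max ((n + 1) * ε) (κ' * ε + 2 * l' / n) := by fun_prop
      refine ge_of_tendsto (x := 𝓝[>] (conc A B)) ((hc.tendsto _).mono_left nhdsWithin_le_nhds) ?_
      filter_upwards [self_mem_nhdsWithin] with ε hε
      exact conc_le (conc_mix_mem hk hl' (mem_concSet hε) n hn)
  exact (conc_tri _ (mix A κ' l') _).trans (add_le_add h1 h2)

theorem conc_mixCont : @MixCont concPM.toUniformSpace.toTopologicalSpace := by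
  let _ : PseudoMetricSpace XX := concPM
  refine mixCont_of fun x κ l δ hδ => ?_
  induction x using Quotient.inductionOn with
  | _ A =>
  obtain ⟨M, hM, h⟩ := mix_conc A (δ := δ / 2) (by linarith)
  obtain ⟨n, hn⟩ := exists_nat_gt (4 * (l : ℝ) / δ)
  have hl0 : (0 : ℝ) ≤ l := l.2
  have hn0 : 0 < n := by
    have : (0 : ℝ) < n := lt_of_le_of_lt (by positivity) hn
    exact_mod_cast this
  have hn1 : (0 : ℝ) < n := by exact_mod_cast hn0
  have hn2 : 2 * (l : ℝ) / n ≤ δ / 2 := by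
    rw [div_lt_iff₀ hδ] at hn
    rw [div_le_iff₀ hn1]
    linarith
  refine ⟨fun p => max (δ / 2) (|(κ : ℝ) - p.2.1| * M + |(l : ℝ) - p.2.2|) +
    max ((n + 1) * dist (cl A) p.1) (p.2.1 * dist (cl A) p.1 + 2 * p.2.2 / n),
    δ / 2 + 2 * l / n, by linarith, ?_, ?_⟩
  · rintro ⟨y, κ', l'⟩
    induction y using Quotient.inductionOn with
    | _ B =>
    exact h B κ κ' l l' κ.2 κ'.2 l.2 l'.2 n hn0
  · have hc : Continuous fun p : XX × NNReal × NNReal =>
        max (δ / 2) (|(κ : ℝ) - p.2.1| * M + |(l : ℝ) - p.2.2|) +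
        max ((n + 1) * dist (cl A) p.1) (p.2.1 * dist (cl A) p.1 + 2 * p.2.2 / n) := by
      fun_prop
    have h3 := hc.tendsto (cl A, κ, l)
    have e : max (δ / 2) (|(κ : ℝ) - κ| * M + |(l : ℝ) - l|) +
        max ((n + 1) * dist (cl A) (cl A)) (κ * dist (cl A) (cl A) + 2 * l / n) =
        δ / 2 + 2 * l / n := by
      rw [dist_self, sub_self, sub_self, abs_zero, zero_mul, mul_zero, mul_zero, zero_add,
        zero_add, max_eq_left (by linarith), max_eq_right (by positivity)]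
    show Tendsto _ (𝓝 (cl A, κ, l)) (𝓝 (δ / 2 + 2 * l / n))
    rw [← e]
    exact h3

end Pool.Agent.R790.Mm
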