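import Pool.Agent.R790.Mm.ConcMain

/-! The observable tail. -/

set_option autoImplicit false

namespace Pool.Agent.R790.Mm

open MeasureTheory Set Topology Filter

/-- how much of the mass lies far from the best constant -/
noncomputable def obsf (A : MM) (f : A.X → ℝ) (r : ℝ) : ℝ :=
  ⨅ c : ℝ, A.μ.real {x | r < |f x - c|}

theorem obsf_bdd (A : MM) (f : A.X → ℝ) (r : ℝ) :
    BddBelow (range fun c : ℝ => A.μ.real {x | r < |f x - c|}) :=
  ⟨0, by rintro _ ⟨c, rfl⟩; exact measureReal_nonneg⟩

theorem obsf_le {A : MM} {f : A.X → ℝ} {r : ℝ} (c : ℝ) :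
    obsf A f r ≤ A.μ.real {x | r < |f x - c|} := ciInf_le (obsf_bdd A f r) c

theorem obsf_nonneg (A : MM) (f : A.X → ℝ) (r : ℝ) : 0 ≤ obsf A f r :=
  le_ciInf fun _ => measureReal_nonneg

theorem obsf_le_one (A : MM) (f : A.X → ℝ) (r : ℝ) : obsf A f r ≤ 1 :=
  (obsf_le 0).trans measureReal_le_one

/-- the observable tail -/
noncomputable def TC (A : MM) (r : ℝ) : ℝ :=
  ⨆ f : {f : A.X → ℝ // LipschitzWith 1 f}, obsf A f.1 r

instance (A : MM) : Nonempty {f : A.X → ℝ // LipschitzWith 1 f} :=
  ⟨⟨fun _ => 0, LipschitzWith.const' 0⟩⟩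

theorem le_TC {A : MM} {f : A.X → ℝ} (hf : LipschitzWith 1 f) (r : ℝ) : obsf A f r ≤ TC A r :=
  le_ciSup (f := fun f : {f : A.X → ℝ // LipschitzWith 1 f} => obsf A f.1 r)
    ⟨1, by rintro _ ⟨f, rfl⟩; exact obsf_le_one _ _ _⟩ ⟨f, hf⟩

theorem TC_le {A : MM} {r b : ℝ} (h : ∀ f : A.X → ℝ, LipschitzWith 1 f → obsf A f r ≤ b) :
    TC A r ≤ b := ciSup_le fun f => h f.1 f.2

theorem TC_emb {A B : MM} (h : Emb A B) (r : ℝ) : TC A r = TC B r := by
  obtain ⟨j, hj, h⟩ := h
  have key : ∀ g : B.X → ℝ, LipschitzWith 1 g → obsf B g r = obsf A (g ∘ j) r := by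
    intro g hg
    unfold obsf
    congr 1
    funext c
    have hm : MeasurableSet {x | r < |g x - c|} :=
      measurableSet_lt measurable_const (hg.continuous.measurable.sub_const c).abs
    rw [← map_real hj.continuous.measurable h hm]
    rfl
  refine le_antisymm (TC_le fun f hf => ?_) (TC_le fun g hg => ?_)
  · let g0 : B.X → ℝ := Function.extend j f 0
    have hg0 : ∀ x, g0 (j x) = f x := fun x => hj.injective.extend_apply f 0 x
    have hlip : LipschitzOnWith 1 g0 (range j) := by
      rintro _ ⟨x, rfl⟩ _ ⟨y, rfl⟩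
      rw [hg0, hg0, hj.edist_eq]
      exact hf x y
    obtain ⟨g, hg, hge⟩ := hlip.extend_real
    have : g ∘ j = f := by
      funext x
      show g (j x) = f x
      rw [← hge ⟨x, rfl⟩, hg0]
    rw [← this, ← key g hg]
    exact le_TC hg r
  · rw [key g hg]
    refine le_TC ?_ r
    have := hg.comp hj.lipschitz
    rwa [one_mul] at this

theorem TC_iso {A B : MM} (h : MMIso A B) : TC A = TC B := by
  obtain ⟨Z, h1, h2⟩ := iso_emb h
  funext r
  rw [← TC_emb h1, TC_emb h2]

/-- the observable tail on classes -/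
noncomputable def TCX : XX → ℝ → ℝ := Quotient.lift TC fun _ _ h => TC_iso h

theorem TC_tf (A : MM) : TF (TC A) where
  anti r r' h := TC_le fun f hf => by
    refine le_trans ?_ (le_TC hf r)
    refine le_ciInf fun c => (obsf_le c).trans (measureReal_mono ?_)
    intro x hx
    exact lt_of_le_of_lt h hx
  nonneg r := (obsf_nonneg A _ r).trans (le_TC (LipschitzWith.const' (0 : ℝ)) r)
  le_one r := TC_le fun f _ => obsf_le_one A f r
  small p hp := by
    obtain ⟨K, M, hK, hKm, hM, hKM⟩ := exists_bdd A hp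
    refine ⟨M + 1, by linarith, TC_le fun f hf => ?_⟩
    have h1 : A.μ.real Kᶜ ≤ p := by
      rw [real_compl _ hK]
      linarith
    obtain ⟨x0, hx0⟩ : ∃ x0, ∀ x ∈ K, dist x x0 ≤ M := by
      rcases K.eq_empty_or_nonempty with hKe | ⟨x0, hx0⟩
      · obtain ⟨x0⟩ : Nonempty A.X := inferInstance
        exact ⟨x0, fun x hx => by rw [hKe] at hx; exact absurd hx (notMem_empty x)⟩
      · exact ⟨x0, fun x hx => hKM x hx x0 hx0⟩
    refine (obsf_le (f x0)).trans ((measureReal_mono ?_).trans h1)
    intro x hx hxK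
    have hx' : M + 1 < |f x - f x0| := hx
    have h2 := hf.dist_le_mul x x0
    rw [NNReal.coe_one, one_mul, Real.dist_eq] at h2
    linarith [hx0 x hxK]

theorem TC_near {A B : MM} {ε : ℝ} (h : conc A B < ε) {r : ℝ} :
    TC B (r + 2 * ε) ≤ TC A r + 2 * ε := by
  obtain ⟨h0, φ, ψ, h1, h2, h3, h4⟩ := mem_concSet h
  refine TC_le fun g hg => ?_
  obtain ⟨f, hf, hgf⟩ := h4 g hg
  have key : ∀ c, B.μ.real {x | r + 2 * ε < |g x - c|} ≤ A.μ.real {x | r < |f x - c|} + ε := by
    intro c
    have m1 : MeasurableSet {x | r + 2 * ε < |g x - c|} :=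
      measurableSet_lt measurable_const (hg.continuous.measurable.sub_const c).abs
    have m2 : MeasurableSet {x | r < |f x - c|} :=
      measurableSet_lt measurable_const (hf.continuous.measurable.sub_const c).abs
    rw [← map_real h1.1 h1.2 m2, ← map_real h2.1 h2.2 m1]
    have h5 : leb.real {s | ε < |g (ψ s) - f (φ s)|} ≤ ε := by
      rw [measureReal_def]
      exact ENNReal.toReal_le_of_le_ofReal h0 hgf
    have h6 : ψ ⁻¹' {x | r + 2 * ε < |g x - c|} ⊆
        φ ⁻¹' {x | r < |f x - c|} ∪ {s | ε < |g (ψ s) - f (φ s)|} := by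
      intro s hs
      by_contra hc
      rw [mem_union, not_or] at hc
      have c0 : r + 2 * ε < |g (ψ s) - c| := hs
      have c1 : |f (φ s) - c| ≤ r := not_lt.1 hc.1
      have c2 : |g (ψ s) - f (φ s)| ≤ ε := not_lt.1 hc.2
      have := abs_sub_le (g (ψ s)) (f (φ s)) c
      linarith
    have h7 := (measureReal_mono (μ := leb) h6).trans (measureReal_union_le _ _)
    linarith
  have h8 : obsf B g (r + 2 * ε) - ε ≤ obsf A f r := by
    refine le_ciInf fun c => ?_
    have := (obsf_le (A := B) (f := g) (r := r + 2 * ε) c).trans (key c)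
    linarith
  have := le_TC hf r
  linarith

theorem TC_pos {A : MM} (h : ¬ IsPt A) : ∃ r > 0, 0 < TC A r := by
  by_contra hc
  push Not at hc
  apply h
  obtain ⟨x0, hx0⟩ : A.μ.support.Nonempty :=
    Measure.nonempty_support (IsProbabilityMeasure.ne_zero A.μ)
  have hf : LipschitzWith 1 fun x : A.X => dist x x0 := LipschitzWith.dist_left x0
  have key : ∀ r > 0, A.μ.real {x | 3 * r < dist x x0} = 0 := by
    intro r hr
    have hball := mem_supp.1 hx0 r hr
    have hball' : 0 < A.μ.real (Metric.ball x0 r) :=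
      ENNReal.toReal_pos hball.ne' (measure_ne_top _ _)
    refine le_antisymm (le_of_forall_pos_le_add fun η hη => ?_) measureReal_nonneg
    have h1 : obsf A (fun x => dist x x0) r < min η (A.μ.real (Metric.ball x0 r)) :=
      lt_of_le_of_lt ((le_TC hf r).trans (hc r hr)) (lt_min hη hball')
    obtain ⟨c, hc'⟩ := exists_lt_of_ciInf_lt h1
    have h2 := lt_of_lt_of_le hc' (min_le_left _ _)
    have h3 := lt_of_lt_of_le hc' (min_le_right _ _)
    have h4 : ∃ y ∈ Metric.ball x0 r, |dist y x0 - c| ≤ r := by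
      by_contra hn
      push Not at hn
      have : Metric.ball x0 r ⊆ {x | r < |dist x x0 - c|} := fun y hy => hn y hy
      have := measureReal_mono (μ := A.μ) this
      linarith
    obtain ⟨y, hy, hyc⟩ := h4
    have hy' : dist y x0 < r := hy
    have hcr : c ≤ 2 * r := by linarith [(abs_le.1 hyc).1]
    have h5 : {x | 3 * r < dist x x0} ⊆ {x | r < |dist x x0 - c|} := by
      intro x hx
      have hx' : 3 * r < dist x x0 := hx
      show r < |dist x x0 - c|
      exact lt_of_lt_of_le (by linarith) (le_abs_self _)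
    have := measureReal_mono (μ := A.μ) h5
    linarith
  have h6 : ∀ᵐ x ∂A.μ, ∀ n : ℕ, ¬ 3 * (1 / ((n : ℝ) + 1)) < dist x x0 := by
    rw [ae_all_iff]
    intro n
    rw [ae_iff]
    have := (measureReal_eq_zero_iff).1 (key (1 / ((n : ℝ) + 1)) (by positivity))
    simpa using this
  refine ⟨x0, (mem_ae_iff_prob_eq_one (measurableSet_singleton x0)).1 ?_⟩
  filter_upwards [h6] with x hx
  by_contra hne
  obtain ⟨n, hn⟩ := exists_nat_one_div_lt (div_pos (dist_pos.2 hne) (show (0 : ℝ) < 3 by norm_num))
  exact hx n (by linarith)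

theorem TC_scale (A : MM) (t : ℝ) (ht : 0 < t) (r : ℝ) : TC (A.scale t ht) r = TC A (r / t) := by
  refine le_antisymm (TC_le fun (f : A.X → ℝ) hf => ?_) (TC_le fun f hf => ?_)
  · have hf1 : ∀ x y : A.X, f x - f y ≤ t * dist x y := fun x y => lip_sub_le hf x y
    have hf' : LipschitzWith 1 fun x : A.X => f x / t := by
      refine LipschitzWith.of_le_add fun x y => ?_
      have h1 := hf1 x y
      rw [div_le_iff₀ ht, add_mul, div_mul_cancel₀ _ ht.ne']
      linarith
    refine le_trans ?_ (le_TC hf' (r / t))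
    refine le_ciInf fun c => (obsf_le (t * c)).trans (le_of_eq ?_)
    show A.μ.real {x | r < |f x - t * c|} = A.μ.real {x | r / t < |f x / t - c|}
    congr 1
    ext x
    have e : f x / t - c = (f x - t * c) / t := by
      field_simp
    show r < |f x - t * c| ↔ r / t < |f x / t - c|
    rw [e, abs_div, abs_of_pos ht, div_lt_div_iff_of_pos_right ht]
  · have hf' : @LipschitzWith (A.scale t ht).X ℝ _ _ 1 fun x : A.X => t * f x := by
      refine LipschitzWith.of_le_add fun (x y : A.X) => ?_
      show t * f x ≤ t * f y + t * dist x y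
      have h1 := mul_le_mul_of_nonneg_left (lip_sub_le hf x y) ht.le
      linarith
    refine le_trans ?_ (le_TC hf' r)
    refine le_ciInf fun c => (obsf_le (c / t)).trans (le_of_eq ?_)
    show A.μ.real {x | r / t < |f x - c / t|} = A.μ.real {x | r < |t * f x - c|}
    congr 1
    ext x
    have e : f x - c / t = (t * f x - c) / t := by
      field_simp
    show r / t < |f x - c / t| ↔ r < |t * f x - c|
    rw [e, abs_div, abs_of_pos ht, div_lt_div_iff_of_pos_right ht]

theorem conc_tfam : @TFam concPM TCX := by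
  let _ : PseudoMetricSpace XX := concPM
  refine ⟨?_, ?_, ?_, ?_⟩
  · intro x
    induction x using Quotient.inductionOn with
    | _ A => exact TC_tf A
  · intro x y ε h r _
    induction x using Quotient.inductionOn with
    | _ A =>
    induction y using Quotient.inductionOn with
    | _ B => exact TC_near (A := A) (B := B) h
  · intro x hx
    induction x using Quotient.inductionOn with
    | _ A => exact TC_pos fun h => hx (eqX.2 (isPt_iff.1 h))
  · intro x t ht r
    induction x using Quotient.inductionOn with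
    | _ A => exact TC_scale A t ht r

end Pool.Agent.R790.Mm
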