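import Mathlib

/-! Metric measure spaces, the box distance. -/

set_option autoImplicit false

namespace Pool.Agent.R790.Mm

open MeasureTheory Set

/-- The interval `[0, 1)`. -/
abbrev II : Type := Set.Ico (0 : ℝ) 1

/-- The Lebesgue measure on `[0, 1)`. -/
noncomputable def leb : Measure II := (volume : Measure ℝ).comap Subtype.val

/-- An mm-space: a complete separable metric space with a Borel probability measure. -/
structure MM where
  /-- the points -/
  X : Type
  [met : MetricSpace X]
  [comp : CompleteSpace X]
  [sepa : TopologicalSpace.SeparableSpace X]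
  [meas : MeasurableSpace X]
  [bor : BorelSpace X]
  /-- the measure -/
  μ : Measure X
  [prob : IsProbabilityMeasure μ]

attribute [instance] MM.met MM.comp MM.sepa MM.meas MM.bor MM.prob

/-- mm-isomorphism: an isometry between the supports of the measures which transports the
measures. -/
def MMIso (A B : MM) : Prop :=
  ∃ f : A.μ.support ≃ᵢ B.μ.support,
    (A.μ.comap Subtype.val).map f = B.μ.comap Subtype.val

/-- A parameter of an mm-space: a Borel map from `[0, 1)` which pushes the Lebesgue measure to the
measure of the space. -/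
def IsParam (A : MM) (φ : II → A.X) : Prop := Measurable φ ∧ leb.map φ = A.μ

/-- The set of `ε ≥ 0` in the definition of the box distance. -/
def boxSet (A B : MM) : Set ℝ :=
  {ε | 0 ≤ ε ∧ ∃ (φ : II → A.X) (ψ : II → B.X) (I₀ : Set II), IsParam A φ ∧ IsParam B ψ ∧
    MeasurableSet I₀ ∧ ENNReal.ofReal (1 - ε) ≤ leb I₀ ∧
    ∀ s ∈ I₀, ∀ t ∈ I₀, |dist (φ s) (φ t) - dist (ψ s) (ψ t)| ≤ ε}

/-- The box distance of two mm-spaces. -/
noncomputable def box (A B : MM) : ℝ := sInf (boxSet A B)

theorem leb_univ : leb univ = 1 := by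
  unfold leb
  rw [comap_subtype_coe_apply measurableSet_Ico, image_univ, Subtype.range_coe, Real.volume_Ico]
  simp

instance : IsProbabilityMeasure leb := ⟨leb_univ⟩

instance : Nonempty II := ⟨⟨0, by simp⟩⟩

theorem MMIso.refl (A : MM) : MMIso A A := by
  refine ⟨IsometryEquiv.refl _, ?_⟩
  show Measure.map id _ = _
  rw [Measure.map_id]

theorem MMIso.symm {A B : MM} (h : MMIso A B) : MMIso B A := by
  obtain ⟨f, hf⟩ := h
  refine ⟨f.symm, ?_⟩
  rw [← hf, Measure.map_map f.symm.continuous.measurable f.continuous.measurable]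
  have : (f.symm ∘ f) = id := by
    ext x; simp
  rw [this, Measure.map_id]

theorem MMIso.trans {A B C : MM} (h : MMIso A B) (h' : MMIso B C) : MMIso A C := by
  obtain ⟨f, hf⟩ := h
  obtain ⟨g, hg⟩ := h'
  refine ⟨f.trans g, ?_⟩
  rw [← hg, ← hf, Measure.map_map g.continuous.measurable f.continuous.measurable]
  rfl

/-- mm-isomorphism as an equivalence relation -/
instance mmSetoid : Setoid MM where
  r := MMIso
  iseqv := ⟨MMIso.refl, MMIso.symm, MMIso.trans⟩

/-- The set of mm-isomorphism classes. -/
def XX : Type 1 := Quotient mmSetoid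

end Pool.Agent.R790.Mm
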