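import Pool.Agent.R790.Mm.Glue

/-! Isometric embeddings which transport the measures, and mm-isomorphisms. -/

set_option autoImplicit false

namespace Pool.Agent.R790.Mm

open MeasureTheory Set Topology

instance (A : MM) : Nonempty A.X := by
  by_contra h
  rw [not_nonempty_iff] at h
  have h1 : A.μ univ = 1 := measure_univ
  rw [univ_eq_empty_iff.2 h] at h1
  simp at h1

instance (A : MM) : StandardBorelSpace A.X := inferInstance

theorem exists_param (A : MM) : ∃ φ, IsParam A φ := exists_rep A.μ

/-- isometric embedding transporting the measure -/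
def Emb (A B : MM) : Prop := ∃ j : A.X → B.X, Isometry j ∧ A.μ.map j = B.μ

theorem emb_param {A B : MM} {j : A.X → B.X} (hj : Isometry j) (h : A.μ.map j = B.μ)
    {φ : II → A.X} (hφ : IsParam A φ) : IsParam B (j ∘ φ) := by
  refine ⟨hj.continuous.measurable.comp hφ.1, ?_⟩
  rw [← Measure.map_map hj.continuous.measurable hφ.1, hφ.2, h]

theorem mem_supp {A : MM} {x : A.X} : x ∈ A.μ.support ↔ ∀ r > 0, 0 < A.μ (Metric.ball x r) :=
  Metric.nhds_basis_ball.mem_measureSupport

theorem emb_supp {A B : MM} {j : A.X → B.X} (hj : Isometry j) (h : A.μ.map j = B.μ) (x : A.X) :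
    j x ∈ B.μ.support ↔ x ∈ A.μ.support := by
  rw [mem_supp, mem_supp]
  have : ∀ r, B.μ (Metric.ball (j x) r) = A.μ (Metric.ball x r) := by
    intro r
    rw [← h, Measure.map_apply hj.continuous.measurable Metric.isOpen_ball.measurableSet]
    congr 1
    ext y
    simp [hj.dist_eq]
  simp [this]

theorem emb_surj {A B : MM} {j : A.X → B.X} (hj : Isometry j) (h : A.μ.map j = B.μ) (y : B.X)
    (hy : y ∈ B.μ.support) : ∃ x, j x = y := by
  have hc : IsClosed (range j) := hj.isClosedEmbedding.isClosed_range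
  by_contra hx
  have hy2 : y ∈ (range j)ᶜ := fun ⟨x, hx'⟩ => hx ⟨x, hx'⟩
  obtain ⟨r, hr, hr2⟩ := Metric.isOpen_iff.1 hc.isOpen_compl y hy2
  have h1 := mem_supp.1 hy r hr
  rw [← h, Measure.map_apply hj.continuous.measurable Metric.isOpen_ball.measurableSet] at h1
  have : j ⁻¹' Metric.ball y r = ∅ := by
    ext z
    simp only [mem_preimage, mem_empty_iff_false, iff_false]
    intro hz
    exact hr2 hz ⟨z, rfl⟩
  rw [this] at h1
  simp at h1

theorem emb_iso {A B : MM} (h : Emb A B) : MMIso A B := by
  obtain ⟨j, hj, h⟩ := h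
  let f : A.μ.support → B.μ.support := fun x => ⟨j x, (emb_supp hj h x).2 x.2⟩
  have hf : Isometry f := by
    intro x y
    exact hj x y
  have hs : Function.Surjective f := by
    rintro ⟨y, hy⟩
    obtain ⟨x, rfl⟩ := emb_surj hj h y hy
    exact ⟨⟨x, (emb_supp hj h x).1 hy⟩, rfl⟩
  let e : A.μ.support ≃ᵢ B.μ.support :=
    ⟨Equiv.ofBijective f ⟨hf.injective, hs⟩, hf⟩
  refine ⟨e, ?_⟩
  have he : (e : A.μ.support → B.μ.support) = f := rfl
  rw [he]
  ext s hs
  have hmA : MeasurableSet A.μ.support := Measure.isClosed_support.measurableSet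
  have hmB : MeasurableSet B.μ.support := Measure.isClosed_support.measurableSet
  rw [Measure.map_apply hf.continuous.measurable hs, comap_subtype_coe_apply hmA,
    comap_subtype_coe_apply hmB]
  have hs' : MeasurableSet (Subtype.val '' s) := hmB.subtype_image hs
  have key : ∀ S : Set B.X, MeasurableSet S → B.μ S = A.μ (j ⁻¹' S) := by
    intro S hS
    rw [← h, Measure.map_apply hj.continuous.measurable hS]
  rw [key _ hs']
  congr 1
  ext x
  constructor
  · rintro ⟨y, hy, rfl⟩
    exact ⟨f y, hy, rfl⟩
  · rintro ⟨y, hy, hy2⟩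
    have : x ∈ A.μ.support := (emb_supp hj h x).1 (hy2 ▸ y.2)
    refine ⟨⟨x, this⟩, ?_, rfl⟩
    show f ⟨x, this⟩ ∈ s
    have : f ⟨x, this⟩ = y := Subtype.ext hy2.symm
    rwa [this]

/-- the support as an mm-space -/
noncomputable def suppMM (A : MM) : MM where
  X := A.μ.support
  comp := Measure.isClosed_support.completeSpace_coe
  μ := A.μ.comap Subtype.val
  prob := ⟨by
    rw [comap_subtype_coe_apply Measure.isClosed_support.measurableSet, image_univ,
      Subtype.range_coe]
    rw [measure_eq_measure_of_null_sdiff (subset_univ _)]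
    · exact measure_univ
    · rw [← compl_eq_univ_sdiff]
      exact Measure.measure_compl_support⟩

theorem supp_map (A : MM) : (A.μ.comap (Subtype.val : A.μ.support → A.X)).map Subtype.val = A.μ := by
  rw [map_comap_subtype_coe Measure.isClosed_support.measurableSet]
  exact Measure.restrict_eq_self_of_ae_mem Measure.support_mem_ae

theorem supp_emb (A : MM) : Emb (suppMM A) A :=
  ⟨Subtype.val, isometry_subtype_coe, supp_map A⟩

theorem iso_emb {A B : MM} (h : MMIso A B) : ∃ Z, Emb Z A ∧ Emb Z B := by
  obtain ⟨f, hf⟩ := h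
  refine ⟨suppMM A, supp_emb A, fun x => (f x).1, ?_, ?_⟩
  · exact isometry_subtype_coe.comp f.isometry
  · show (A.μ.comap Subtype.val).map (Subtype.val ∘ f) = B.μ
    rw [← Measure.map_map measurable_subtype_coe f.continuous.measurable, hf, supp_map]

/-- A property of pairs which is invariant under embeddings is invariant under isomorphisms. -/
theorem iso_of_emb {F : MM → MM} (hF : ∀ A B, Emb A B → Emb (F A) (F B)) {A B : MM}
    (h : MMIso A B) : MMIso (F A) (F B) := by
  obtain ⟨Z, h1, h2⟩ := iso_emb h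
  exact (emb_iso (hF _ _ h1)).symm.trans (emb_iso (hF _ _ h2))

end Pool.Agent.R790.Mm
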