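import Pool.Agent.R790.Mm.Defs

/-! Parameters and gluing. -/

set_option autoImplicit false

namespace Pool.Agent.R790.Mm

open MeasureTheory Set ProbabilityTheory

instance : StandardBorelSpace II := measurableSet_Ico.standardBorel

theorem exists_uniform : ∃ j : II → unitInterval, Measurable j ∧
    leb.map j = (volume : Measure unitInterval) := by
  let j : II → unitInterval := fun x => ⟨x.1, x.2.1, x.2.2.le⟩
  have hj : Measurable j := measurable_subtype_coe.subtype_mk
  refine ⟨j, hj, ?_⟩
  ext s hs
  rw [Measure.map_apply hj hs]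
  unfold leb
  rw [comap_subtype_coe_apply measurableSet_Ico]
  have h1 : (volume : Measure unitInterval) s = volume (Subtype.val '' s) := by
    rw [unitInterval.volume_def]
    exact comap_subtype_coe_apply measurableSet_Icc _ _
  rw [h1]
  have h2 : Subtype.val '' (j ⁻¹' s) = (Subtype.val '' s) \ {(1 : ℝ)} := by
    ext x
    constructor
    · rintro ⟨y, hy, rfl⟩
      exact ⟨⟨j y, hy, rfl⟩, y.2.2.ne⟩
    · rintro ⟨⟨y, hy, rfl⟩, hy2⟩
      have h3 : (y : ℝ) < 1 := lt_of_le_of_ne y.2.2 hy2
      exact ⟨⟨y.1, y.2.1, h3⟩, hy, rfl⟩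
  rw [h2]
  exact measure_sdiff_null (by simp)

theorem exists_rep {Y : Type} [MeasurableSpace Y] [StandardBorelSpace Y] [Nonempty Y]
    (μ : Measure Y) [IsProbabilityMeasure μ] : ∃ f : II → Y, Measurable f ∧ leb.map f = μ := by
  obtain ⟨j, hj, hj'⟩ := exists_uniform
  obtain ⟨f, hf, hf'⟩ := μ.exists_measurable_map_eq
  exact ⟨f ∘ j, hf.comp hj, by rw [← Measure.map_map hf hj, hj', hf']⟩

/-- gluing of two measurable maps with the same law -/
theorem glue {Y : Type} [MeasurableSpace Y] [StandardBorelSpace Y] {ψ ψ' : II → Y}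
    (hψ : Measurable ψ) (hψ' : Measurable ψ') (h : leb.map ψ = leb.map ψ') :
    ∃ a b : II → II, Measurable a ∧ Measurable b ∧ leb.map a = leb ∧ leb.map b = leb ∧
      ∀ᵐ s ∂leb, ψ (a s) = ψ' (b s) := by
  have : Nonempty Y := ⟨ψ (Classical.arbitrary _)⟩
  let ρ : Measure (Y × II) := leb.map (fun s => (ψ s, s))
  let ρ' : Measure (Y × II) := leb.map (fun s => (ψ' s, s))
  have hm : Measurable (fun s => (ψ s, s)) := hψ.prodMk measurable_id
  have hm' : Measurable (fun s => (ψ' s, s)) := hψ'.prodMk measurable_id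
  have : IsProbabilityMeasure ρ := Measure.isProbabilityMeasure_map hm.aemeasurable
  have : IsProbabilityMeasure ρ' := Measure.isProbabilityMeasure_map hm'.aemeasurable
  have hρ1 : ρ.fst = leb.map ψ := by
    show (leb.map _).map Prod.fst = _
    rw [Measure.map_map measurable_fst hm]
    rfl
  have hρ1' : ρ'.fst = leb.map ψ := by
    rw [h]
    show (leb.map _).map Prod.fst = _
    rw [Measure.map_map measurable_fst hm']
    rfl
  have hρ2 : ρ.snd = leb := by
    show (leb.map _).map Prod.snd = _
    rw [Measure.map_map measurable_snd hm]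
    exact Measure.map_id
  have hρ2' : ρ'.snd = leb := by
    show (leb.map _).map Prod.snd = _
    rw [Measure.map_map measurable_snd hm']
    exact Measure.map_id
  set ν := leb.map ψ with hν
  let κ := ρ.condKernel
  let κ' := ρ'.condKernel
  have hκ : ν ⊗ₘ κ = ρ := by
    rw [← hρ1]
    exact ρ.disintegrate κ
  have hκ' : ν ⊗ₘ κ' = ρ' := by
    rw [← hρ1']
    exact ρ'.disintegrate κ'
  have : IsProbabilityMeasure ν := Measure.isProbabilityMeasure_map hψ.aemeasurable
  let m : Measure (Y × (II × II)) := ν ⊗ₘ (κ ×ₖ κ')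
  have hm1 : m.map (Prod.map id Prod.fst) = ρ := by
    show (ν ⊗ₘ (κ ×ₖ κ')).map _ = _
    rw [← Measure.compProd_map measurable_fst]
    have : (κ ×ₖ κ').map Prod.fst = κ := by
      have := Kernel.fst_prod κ κ'
      rwa [Kernel.fst_eq] at this
    rw [this, hκ]
  have hm2 : m.map (Prod.map id Prod.snd) = ρ' := by
    show (ν ⊗ₘ (κ ×ₖ κ')).map _ = _
    rw [← Measure.compProd_map measurable_snd]
    have : (κ ×ₖ κ').map Prod.snd = κ' := by
      have := Kernel.snd_prod κ κ'
      rwa [Kernel.snd_eq] at this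
    rw [this, hκ']
  have hmeas1 : Measurable (Prod.map (id : Y → Y) (Prod.fst : II × II → II)) :=
    measurable_id.prodMap measurable_fst
  have hmeas2 : Measurable (Prod.map (id : Y → Y) (Prod.snd : II × II → II)) :=
    measurable_id.prodMap measurable_snd
  have hae1 : ∀ᵐ z ∂m, ψ z.2.1 = z.1 := by
    have hset : MeasurableSet {z : Y × II | ψ z.2 = z.1} :=
      measurableSet_eq_fun (hψ.comp measurable_snd) measurable_fst
    have h1 : ∀ᵐ z ∂ρ, ψ z.2 = z.1 := by
      rw [ae_map_iff hm.aemeasurable hset]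
      exact Filter.Eventually.of_forall fun s => rfl
    rw [← hm1, ae_map_iff hmeas1.aemeasurable hset] at h1
    exact h1
  have hae2 : ∀ᵐ z ∂m, ψ' z.2.2 = z.1 := by
    have hset : MeasurableSet {z : Y × II | ψ' z.2 = z.1} :=
      measurableSet_eq_fun (hψ'.comp measurable_snd) measurable_fst
    have h1 : ∀ᵐ z ∂ρ', ψ' z.2 = z.1 := by
      rw [ae_map_iff hm'.aemeasurable hset]
      exact Filter.Eventually.of_forall fun s => rfl
    rw [← hm2, ae_map_iff hmeas2.aemeasurable hset] at h1
    exact h1
  have : IsProbabilityMeasure m := inferInstance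
  let Q : Measure (II × II) := m.map Prod.snd
  have : IsProbabilityMeasure Q := Measure.isProbabilityMeasure_map measurable_snd.aemeasurable
  obtain ⟨cc, hc, hc'⟩ := exists_rep Q
  refine ⟨fun s => (cc s).1, fun s => (cc s).2, measurable_fst.comp hc, measurable_snd.comp hc,
    ?_, ?_, ?_⟩
  · have : leb.map (fun s => (cc s).1) = (leb.map cc).map Prod.fst := by
      rw [Measure.map_map measurable_fst hc]; rfl
    rw [this, hc']
    show (m.map Prod.snd).map Prod.fst = leb
    rw [Measure.map_map measurable_fst measurable_snd]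
    conv_rhs => rw [← hρ2, ← hm1]
    show _ = (m.map _).map Prod.snd
    rw [Measure.map_map measurable_snd hmeas1]
    rfl
  · have : leb.map (fun s => (cc s).2) = (leb.map cc).map Prod.snd := by
      rw [Measure.map_map measurable_snd hc]; rfl
    rw [this, hc']
    show (m.map Prod.snd).map Prod.snd = leb
    rw [Measure.map_map measurable_snd measurable_snd]
    conv_rhs => rw [← hρ2', ← hm2]
    show _ = (m.map _).map Prod.snd
    rw [Measure.map_map measurable_snd hmeas2]
    rfl
  · have hset : MeasurableSet {z : II × II | ψ z.1 = ψ' z.2} :=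
      measurableSet_eq_fun (hψ.comp measurable_fst) (hψ'.comp measurable_snd)
    have h1 : ∀ᵐ z ∂Q, ψ z.1 = ψ' z.2 := by
      rw [ae_map_iff measurable_snd.aemeasurable hset]
      filter_upwards [hae1, hae2] with z h1 h2
      rw [h1, h2]
    rw [← hc', ae_map_iff hc.aemeasurable hset] at h1
    exact h1

end Pool.Agent.R790.Mm
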