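import Pool.Agent.R790.Mm.Emb

/-! Operations on mm-spaces: scaling, `ℓ¹`-product with an interval. -/

set_option autoImplicit false

namespace Pool.Agent.R790.Mm

open MeasureTheory Set Topology Uniformity

theorem basis_aux {Y : Type} (F : Y → ℝ) :
    (⨅ ε > (0 : ℝ), Filter.principal {p | F p < ε}).HasBasis (fun ε : ℝ => 0 < ε)
      (fun ε => {p | F p < ε}) := by
  refine Filter.hasBasis_biInf_principal (S := {ε : ℝ | 0 < ε}) ?_ ?_
  · intro x hx y hy
    have hx' : 0 < x := hx
    have hy' : 0 < y := hy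
    refine ⟨min x y, lt_min hx' hy', ?_, ?_⟩
    · intro p hp
      exact lt_of_lt_of_le (show F p < min x y from hp) (min_le_left _ _)
    · intro p hp
      exact lt_of_lt_of_le (show F p < min x y from hp) (min_le_right _ _)
  · exact ⟨1, show (0 : ℝ) < 1 from one_pos⟩

/-- The metric `t · d`. -/
noncomputable abbrev scaleMet (Y : Type) [MetricSpace Y] (t : ℝ) (ht : 0 < t) : MetricSpace Y where
  dist x y := t * dist x y
  dist_self x := by simp
  dist_comm x y := by rw [dist_comm]
  dist_triangle x y z := by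
    rw [← mul_add]
    exact mul_le_mul_of_nonneg_left (dist_triangle x y z) ht.le
  toUniformSpace := inferInstance
  uniformity_dist := by
    refine Metric.uniformity_basis_dist.ext (basis_aux _) ?_ ?_
    · intro ε hε
      refine ⟨t * ε, mul_pos ht hε, ?_⟩
      intro p hp
      exact lt_of_mul_lt_mul_left (show t * dist p.1 p.2 < t * ε from hp) ht.le
    · intro ε hε
      refine ⟨ε / t, div_pos hε ht, ?_⟩
      intro p hp
      have hp' : dist p.1 p.2 < ε / t := hp
      show t * _ < ε
      rwa [lt_div_iff₀ ht, mul_comm] at hp'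
  eq_of_dist_eq_zero {x y} h := by
    have : dist x y = 0 := by
      rcases mul_eq_zero.1 h with h | h
      · exact absurd h ht.ne'
      · exact h
    exact dist_eq_zero.1 this

/-- The mm-space `(X, t · d, μ)`. -/
noncomputable def MM.scale (A : MM) (t : ℝ) (ht : 0 < t) : MM where
  X := A.X
  met := scaleMet A.X t ht
  comp := A.comp
  sepa := A.sepa
  meas := A.meas
  bor := A.bor
  μ := A.μ
  prob := A.prob

/-- The `ℓ¹`-metric on a product with the line. -/
noncomputable abbrev sumMet (Y : Type) [MetricSpace Y] : MetricSpace (Y × ℝ) where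
  dist p q := dist p.1 q.1 + |p.2 - q.2|
  dist_self x := by simp
  dist_comm x y := by rw [dist_comm, abs_sub_comm]
  dist_triangle x y z := by
    have h1 := dist_triangle x.1 y.1 z.1
    have h2 := abs_sub_le x.2 y.2 z.2
    linarith
  toUniformSpace := instUniformSpaceProd
  uniformity_dist := by
    refine Metric.uniformity_basis_dist.ext (basis_aux _) ?_ ?_
    · intro ε hε
      refine ⟨ε, hε, ?_⟩
      intro p hp'
      have hp : dist p.1.1 p.2.1 + |p.1.2 - p.2.2| < ε := hp'
      show max _ _ < ε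
      have h1 : 0 ≤ dist p.1.1 p.2.1 := dist_nonneg
      have h2 : 0 ≤ |p.1.2 - p.2.2| := abs_nonneg _
      have h3 : dist p.1.2 p.2.2 = |p.1.2 - p.2.2| := Real.dist_eq _ _
      rw [h3]
      exact max_lt (by linarith) (by linarith)
    · intro ε hε
      have h0 : 0 < ε := hε
      refine ⟨ε / 2, half_pos h0, ?_⟩
      intro p hp'
      have hp : max (dist p.1.1 p.2.1) (dist p.1.2 p.2.2) < ε / 2 := hp'
      show dist _ _ + |_| < ε
      have h1 := lt_of_le_of_lt (le_max_left _ _) hp
      have h2 := lt_of_le_of_lt (le_max_right _ _) hp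
      have h3 : dist p.1.2 p.2.2 = |p.1.2 - p.2.2| := Real.dist_eq _ _
      rw [h3] at h2
      linarith
  eq_of_dist_eq_zero {x y} h := by
    have h1 : 0 ≤ dist x.1 y.1 := dist_nonneg
    have h2 : 0 ≤ |x.2 - y.2| := abs_nonneg _
    have h3 : dist x.1 y.1 + |x.2 - y.2| = 0 := h
    have h4 : dist x.1 y.1 = 0 := by linarith
    have h5 : |x.2 - y.2| = 0 := by linarith
    exact Prod.ext (dist_eq_zero.1 h4) (sub_eq_zero.1 (abs_eq_zero.1 h5))

/-- The map from the product with `[0, 1)` to the product with the line. -/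
def stretch (Y : Type) (l : ℝ) (p : Y × II) : Y × ℝ := (p.1, l * p.2.1)

theorem measurable_stretch (Y : Type) [MeasurableSpace Y] (l : ℝ) :
    Measurable (stretch Y l) :=
  measurable_fst.prodMk ((measurable_subtype_coe.comp measurable_snd).const_mul l)

/-- The mm-space `X × l [0, 1)` with the `ℓ¹`-metric. -/
noncomputable def MM.prod (A : MM) (l : ℝ) : MM where
  X := A.X × ℝ
  met := sumMet A.X
  comp := CompleteSpace.prod
  sepa := TopologicalSpace.instSeparableSpaceProd
  meas := Prod.instMeasurableSpace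
  bor := Prod.borelSpace
  μ := (A.μ.prod leb).map (stretch A.X l)
  prob := Measure.isProbabilityMeasure_map (measurable_stretch A.X l).aemeasurable

/-- The one-point space. -/
noncomputable def pt : MM where
  X := Unit
  met := inferInstance
  comp := inferInstance
  sepa := inferInstance
  meas := inferInstance
  bor := inferInstance
  μ := Measure.dirac ()
  prob := inferInstance

/-- `κ X × l [0, 1)`, where `0 X` is the one-point space. -/
noncomputable def mix (A : MM) (κ l : ℝ) : MM := by
  classical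
  exact if h : 0 < κ then (A.scale κ h).prod l else pt.prod l

theorem mix_pos (A : MM) {κ : ℝ} (h : 0 < κ) (l : ℝ) : mix A κ l = (A.scale κ h).prod l := by
  unfold mix
  rw [dif_pos h]

theorem mix_nonpos (A : MM) {κ : ℝ} (h : ¬ 0 < κ) (l : ℝ) : mix A κ l = pt.prod l := by
  unfold mix
  rw [dif_neg h]

theorem scale_emb {A B : MM} (t : ℝ) (ht : 0 < t) (h : Emb A B) :
    Emb (A.scale t ht) (B.scale t ht) := by
  obtain ⟨j, hj, h⟩ := h
  refine ⟨j, ?_, h⟩
  refine Isometry.of_dist_eq fun (x y : A.X) => ?_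
  show t * dist (j x) (j y) = t * dist x y
  rw [hj.dist_eq]

theorem prod_emb {A B : MM} (l : ℝ) (h : Emb A B) : Emb (A.prod l) (B.prod l) := by
  obtain ⟨j, hj, h⟩ := h
  refine ⟨fun p => (j p.1, p.2), ?_, ?_⟩
  · refine Isometry.of_dist_eq fun (x y : A.X × ℝ) => ?_
    show dist (j x.1) (j y.1) + |x.2 - y.2| = dist x.1 y.1 + |x.2 - y.2|
    rw [hj.dist_eq]
  · have hjm : Measurable j := hj.continuous.measurable
    show ((A.μ.prod leb).map (stretch A.X l)).map (fun p : A.X × ℝ => (j p.1, p.2)) =
      (B.μ.prod leb).map (stretch B.X l)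
    have hm : Measurable (fun p : A.X × ℝ => (j p.1, p.2)) :=
      (hjm.comp measurable_fst).prodMk measurable_snd
    have hm2 : Measurable (Prod.map j (id : II → II)) := hjm.prodMap measurable_id
    rw [Measure.map_map hm (measurable_stretch _ l)]
    have e : B.μ.prod leb = (A.μ.prod leb).map (Prod.map j (id : II → II)) := by
      rw [← Measure.map_prod_map A.μ leb hjm measurable_id, h, Measure.map_id]
    rw [e, Measure.map_map (measurable_stretch _ l) hm2]
    rfl

theorem mix_emb {A B : MM} (κ l : ℝ) (h : Emb A B) : Emb (mix A κ l) (mix B κ l) := by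
  by_cases hκ : 0 < κ
  · rw [mix_pos A hκ, mix_pos B hκ]
    exact prod_emb l (scale_emb κ hκ h)
  · rw [mix_nonpos A hκ, mix_nonpos B hκ]
    exact ⟨id, isometry_id, Measure.map_id⟩

theorem scale_one (A : MM) : Emb (A.scale 1 one_pos) A := by
  refine ⟨id, ?_, Measure.map_id⟩
  refine Isometry.of_dist_eq fun (x y : A.X) => ?_
  show dist x y = 1 * dist x y
  rw [one_mul]

theorem scale_scale (A : MM) (s t : ℝ) (hs : 0 < s) (ht : 0 < t) :
    Emb ((A.scale s hs).scale t ht) (A.scale (t * s) (mul_pos ht hs)) := by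
  refine ⟨id, ?_, Measure.map_id⟩
  refine Isometry.of_dist_eq fun (x y : A.X) => ?_
  show t * s * dist x y = t * (s * dist x y)
  ring

theorem prod_scale (A : MM) (l t : ℝ) (ht : 0 < t) :
    Emb ((A.prod l).scale t ht) ((A.scale t ht).prod (t * l)) := by
  refine ⟨fun p => (p.1, t * p.2), ?_, ?_⟩
  · refine Isometry.of_dist_eq fun (x y : A.X × ℝ) => ?_
    show t * dist x.1 y.1 + |t * x.2 - t * y.2| = t * (dist x.1 y.1 + |x.2 - y.2|)
    rw [← mul_sub, abs_mul, abs_of_pos ht]
    ring
  · show ((A.μ.prod leb).map (stretch A.X l)).map (fun p : A.X × ℝ => (p.1, t * p.2)) =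
      (A.μ.prod leb).map (stretch A.X (t * l))
    have hm : Measurable (fun p : A.X × ℝ => (p.1, t * p.2)) :=
      measurable_fst.prodMk (measurable_snd.const_mul t)
    rw [Measure.map_map hm (measurable_stretch _ l)]
    congr 1
    funext p
    simp [stretch, mul_assoc]

theorem pt_scale (t : ℝ) (ht : 0 < t) : Emb (pt.scale t ht) pt := by
  refine ⟨id, ?_, Measure.map_id⟩
  refine Isometry.of_dist_eq fun (x y : Unit) => ?_
  show dist x y = t * dist x y
  have : x = y := Subsingleton.elim x y
  subst this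
  rw [dist_self, mul_zero]

/-- `X × 0 [0, 1)` is `X`. -/
theorem emb_prod_zero (A : MM) : Emb A (A.prod 0) := by
  refine ⟨fun x => (x, 0), ?_, ?_⟩
  · refine Isometry.of_dist_eq fun (x y : A.X) => ?_
    show dist x y + |(0 : ℝ) - 0| = dist x y
    simp
  · show A.μ.map (fun x => (x, (0 : ℝ))) = (A.μ.prod leb).map (stretch A.X 0)
    have e : (A.μ.prod leb).map Prod.fst = A.μ := by
      rw [Measure.map_fst_prod, measure_univ, one_smul]
    conv_lhs => rw [← e]
    have hm : Measurable (fun x : A.X => (x, (0 : ℝ))) := measurable_id.prodMk measurable_const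
    rw [Measure.map_map hm measurable_fst]
    congr 1
    funext p
    simp [stretch]

theorem mix_scale (A : MM) {κ : ℝ} (hκ : 0 ≤ κ) (l t : ℝ) (ht : 0 < t) :
    MMIso ((mix A κ l).scale t ht) (mix A (t * κ) (t * l)) := by
  rcases hκ.eq_or_lt with h | h
  · subst h
    rw [mix_nonpos A (lt_irrefl _), mix_nonpos A (by simp)]
    exact (emb_iso (prod_scale pt l t ht)).trans (emb_iso (prod_emb _ (pt_scale t ht)))
  · rw [mix_pos A h, mix_pos A (mul_pos ht h)]
    exact (emb_iso (prod_scale _ l t ht)).trans (emb_iso (prod_emb _ (scale_scale A κ t h ht)))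

theorem scale_mix (A : MM) {κ : ℝ} (hκ : 0 ≤ κ) (l t : ℝ) (ht : 0 < t) :
    MMIso (mix (A.scale t ht) κ l) (mix A (κ * t) l) := by
  rcases hκ.eq_or_lt with h | h
  · subst h
    rw [mix_nonpos _ (lt_irrefl _), mix_nonpos A (by simp)]
    exact MMIso.refl _
  · rw [mix_pos _ h, mix_pos A (mul_pos h ht)]
    exact emb_iso (prod_emb _ (scale_scale A t κ ht h))

theorem mix_one_zero (A : MM) : MMIso (mix A 1 0) A := by
  rw [mix_pos A one_pos]
  exact (emb_iso (emb_prod_zero _)).symm.trans (emb_iso (scale_one A))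

theorem mix_zero_one (A B : MM) : mix A 0 1 = mix B 0 1 := by
  rw [mix_nonpos _ (lt_irrefl _), mix_nonpos _ (lt_irrefl _)]

end Pool.Agent.R790.Mm
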