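import Pool.Agent.R790.Mm.Ops

/-! Operations on the set of mm-isomorphism classes, the quotient by scaling. -/

set_option autoImplicit false

namespace Pool.Agent.R790.Mm

open MeasureTheory Set Topology

/-- The class of the one-point space. -/
noncomputable def ptX : XX := Quotient.mk mmSetoid pt

/-- The scaling action on `XX`. -/
noncomputable def scaleX (t : ℝ) (ht : 0 < t) : XX → XX :=
  Quotient.map (fun A => A.scale t ht) fun _ _ h => iso_of_emb (fun _ _ h => scale_emb t ht h) h

/-- the mixing operation on `XX` -/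
noncomputable def mixX (x : XX) (κ l : ℝ) : XX :=
  Quotient.map (fun A => mix A κ l) (fun _ _ h => iso_of_emb (fun _ _ h => mix_emb κ l h) h) x

theorem eqX {A B : MM} : (Quotient.mk mmSetoid A) = Quotient.mk mmSetoid B ↔ MMIso A B :=
  Quotient.eq

theorem scaleX_one (x : XX) : scaleX 1 one_pos x = x :=
  Quotient.inductionOn x fun A => eqX.2 (emb_iso (scale_one A))

theorem scaleX_scaleX (x : XX) (s t : ℝ) (hs : 0 < s) (ht : 0 < t) :
    scaleX t ht (scaleX s hs x) = scaleX (t * s) (mul_pos ht hs) x :=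
  Quotient.inductionOn x fun A => eqX.2 (emb_iso (scale_scale A s t hs ht))

theorem scaleX_pt (t : ℝ) (ht : 0 < t) : scaleX t ht ptX = ptX :=
  eqX.2 (emb_iso (pt_scale t ht))

theorem scaleX_mixX (x : XX) {κ : ℝ} (hκ : 0 ≤ κ) (l t : ℝ) (ht : 0 < t) :
    scaleX t ht (mixX x κ l) = mixX x (t * κ) (t * l) :=
  Quotient.inductionOn x fun A => eqX.2 (mix_scale A hκ l t ht)

theorem mixX_scaleX (x : XX) {κ : ℝ} (hκ : 0 ≤ κ) (l t : ℝ) (ht : 0 < t) :
    mixX (scaleX t ht x) κ l = mixX x (κ * t) l :=
  Quotient.inductionOn x fun A => eqX.2 (scale_mix A hκ l t ht)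

theorem mixX_one_zero (x : XX) : mixX x 1 0 = x :=
  Quotient.inductionOn x fun A => eqX.2 (mix_one_zero A)

theorem mixX_zero_one (x y : XX) : mixX x 0 1 = mixX y 0 1 :=
  Quotient.inductionOn₂ x y fun A B => congrArg (Quotient.mk mmSetoid) (mix_zero_one A B)

/-- The measure is concentrated in one point. -/
def IsPt (A : MM) : Prop := ∃ x, A.μ {x} = 1

theorem IsPt.iso {A : MM} (h : IsPt A) : MMIso A pt := by
  obtain ⟨x, hx⟩ := h
  refine (emb_iso ⟨fun _ => x, ?_, ?_⟩ : MMIso pt A).symm
  · refine Isometry.of_dist_eq fun (u v : Unit) => ?_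
    rw [dist_self]
    exact (dist_self u).symm
  · show (Measure.dirac ()).map (fun _ => x) = A.μ
    rw [Measure.map_const, measure_univ, one_smul]
    have h1 : ∀ᵐ y ∂A.μ, y = x := by
      have := (mem_ae_iff_prob_eq_one (measurableSet_singleton x)).2 hx
      exact this
    ext s hs
    by_cases hxs : x ∈ s
    · rw [Measure.dirac_apply_of_mem hxs]
      refine ((mem_ae_iff_prob_eq_one hs).1 ?_).symm
      filter_upwards [h1] with y hy
      rwa [hy]
    · rw [Measure.dirac_apply' _ hs, indicator_of_notMem hxs]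
      symm
      rw [measure_eq_zero_iff_ae_notMem]
      filter_upwards [h1] with y hy
      rwa [hy]

theorem isPt_emb {A B : MM} (h : Emb A B) : IsPt A ↔ IsPt B := by
  obtain ⟨j, hj, h⟩ := h
  have key : ∀ y, B.μ {y} = A.μ (j ⁻¹' {y}) := fun y => by
    rw [← h, Measure.map_apply hj.continuous.measurable (measurableSet_singleton y)]
  constructor
  · rintro ⟨x, hx⟩
    refine ⟨j x, ?_⟩
    rw [key]
    refine le_antisymm prob_le_one ?_
    rw [← hx]
    exact measure_mono (by simp)
  · rintro ⟨y, hy⟩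
    rw [key] at hy
    have hne : (j ⁻¹' {y}).Nonempty := by
      rw [nonempty_iff_ne_empty]
      intro h0
      rw [h0] at hy
      simp at hy
    obtain ⟨x, hx⟩ := hne
    refine ⟨x, ?_⟩
    rw [← hy]
    congr 1
    ext z
    constructor
    · rintro rfl
      exact hx
    · intro hz
      exact hj.injective ((show j z = y from hz).trans (show j x = y from hx).symm)

theorem isPt_iso {A B : MM} (h : MMIso A B) : IsPt A ↔ IsPt B := by
  obtain ⟨Z, h1, h2⟩ := iso_emb h
  exact (isPt_emb h1).symm.trans (isPt_emb h2)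

theorem isPt_pt : IsPt pt := ⟨(), by
  show Measure.dirac () {()} = 1
  simp⟩

theorem isPt_iff {A : MM} : IsPt A ↔ MMIso A pt :=
  ⟨IsPt.iso, fun h => (isPt_iso h).2 isPt_pt⟩

instance : NullSingletonClass leb := by
  refine ⟨fun x => ?_⟩
  unfold leb
  rw [comap_subtype_coe_apply measurableSet_Ico, image_singleton]
  exact measure_singleton _

theorem not_isPt_prod (A : MM) {l : ℝ} (hl : 0 < l) : ¬ IsPt (A.prod l) := by
  rintro ⟨(x : A.X × ℝ), hx⟩
  have h1 : ((A.μ.prod leb).map (stretch A.X l)) {x} = 1 := hx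
  rw [Measure.map_apply (measurable_stretch _ l) (measurableSet_singleton x)] at h1
  have h2 : (A.μ.prod leb) (stretch A.X l ⁻¹' {x}) ≤
      (A.μ.prod leb) (Prod.snd ⁻¹' {u : II | l * u = x.2}) := by
    refine measure_mono fun p hp => ?_
    have h3 : stretch A.X l p = x := hp
    exact congrArg Prod.snd h3
  have hms : MeasurableSet {u : II | l * u = x.2} :=
    (measurable_subtype_coe.const_mul l) (measurableSet_singleton x.2)
  have h4 : (A.μ.prod leb) (Prod.snd ⁻¹' {u : II | l * u = x.2}) = leb {u : II | l * u = x.2} := by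
    rw [← Measure.map_apply measurable_snd hms, Measure.map_snd_prod, measure_univ, one_smul]
  have h5 : leb {u : II | l * u = x.2} = 0 := by
    have : ({u : II | l * u = x.2}).Subsingleton := by
      intro u hu v hv
      have h6 : l * (u : ℝ) = l * v := (show l * (u : ℝ) = x.2 from hu).trans
        (show l * (v : ℝ) = x.2 from hv).symm
      exact Subtype.ext (mul_left_cancel₀ hl.ne' h6)
    exact this.measure_zero leb
  rw [h1, h4, h5] at h2
  simp at h2

theorem isPt_of_prod {A : MM} {l : ℝ} (h : IsPt (A.prod l)) : IsPt A := by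
  obtain ⟨(x : A.X × ℝ), hx⟩ := h
  refine ⟨x.1, le_antisymm prob_le_one ?_⟩
  have h1 : ((A.μ.prod leb).map (stretch A.X l)) {x} = 1 := hx
  rw [Measure.map_apply (measurable_stretch _ l) (measurableSet_singleton x)] at h1
  have h2 : (A.μ.prod leb) (stretch A.X l ⁻¹' {x}) ≤
      (A.μ.prod leb) (Prod.fst ⁻¹' {x.1}) := by
    refine measure_mono fun p hp => ?_
    have h3 : stretch A.X l p = x := hp
    exact congrArg Prod.fst h3
  rw [← Measure.map_apply measurable_fst (measurableSet_singleton _), Measure.map_fst_prod,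
    measure_univ, one_smul] at h2
  rwa [h1] at h2

theorem mixX_ne {x : XX} (hx : x ≠ ptX) {κ l : ℝ} (hκ : 0 < κ ∨ 0 < l) : mixX x κ l ≠ ptX := by
  induction x using Quotient.inductionOn with
  | _ A =>
  have hA : ¬ IsPt A := fun h => hx (eqX.2 (isPt_iff.1 h))
  intro h
  have h1 : IsPt (mix A κ l) := isPt_iff.2 (eqX.1 h)
  by_cases hk : 0 < κ
  · rw [mix_pos A hk] at h1
    exact hA (isPt_of_prod h1)
  · rw [mix_nonpos A hk] at h1
    exact not_isPt_prod pt (hκ.resolve_left hk) h1

theorem scaleX_eq_mixX (x : XX) (t : ℝ) (ht : 0 < t) : scaleX t ht x = mixX x t 0 := by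
  have := scaleX_mixX x (κ := 1) zero_le_one 0 t ht
  rw [mixX_one_zero, mul_one, mul_zero] at this
  exact this

theorem scaleX_ne {x : XX} (hx : x ≠ ptX) (t : ℝ) (ht : 0 < t) : scaleX t ht x ≠ ptX := by
  rw [scaleX_eq_mixX]
  exact mixX_ne hx (Or.inl ht)

/-- The set `X_*` of the classes other than the class of the one-point space. -/
abbrev Xs : Type 1 := {x : XX // x ≠ ptX}

/-- Two elements of `X_*` are equivalent if they differ by a scaling. -/
instance scaleSetoid : Setoid Xs where
  r x y := ∃ (t : ℝ) (ht : 0 < t), scaleX t ht x.1 = y.1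
  iseqv := by
    refine ⟨fun x => ⟨1, one_pos, scaleX_one x.1⟩, ?_, ?_⟩
    · rintro x y ⟨t, ht, h⟩
      refine ⟨t⁻¹, inv_pos.2 ht, ?_⟩
      rw [← h, scaleX_scaleX]
      have : t⁻¹ * t = 1 := inv_mul_cancel₀ ht.ne'
      simp only [this]
      exact scaleX_one x.1
    · rintro x y z ⟨t, ht, h⟩ ⟨s, hs, h'⟩
      refine ⟨s * t, mul_pos hs ht, ?_⟩
      rw [← h', ← h, scaleX_scaleX]

/-- The quotient of `X_*` by the scaling action. -/
abbrev Sig : Type 1 := Quotient scaleSetoid

end Pool.Agent.R790.Mm
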